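import Pool.Agent.Lib.MP_979eef_lc.K.Defs

/-!
# Module SepOps

Closure of `Sep` under `and`, `or` and weakening; from separation of `f` from `f` to a
monotone formula without constants (`MF` formula is constant or equivalent to a positive `Fml` of at
most the same size: induction over the formula).
-/

set_option autoImplicit false

namespace MP979

open Finset

theorem Sep.mono {R : Type} {s s' : ℕ} {p q : (R → Bool) → Bool} (h : Sep s p q) (hs : s ≤ s') :
    Sep s' p q := by
  obtain ⟨φ, h1, h2, h3⟩ := h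
  exact ⟨φ, le_trans h1 hs, h2, h3⟩

theorem Sep.and {R : Type} {s s' : ℕ} {p q p' q' : (R → Bool) → Bool} (h : Sep s p q)
    (h' : Sep s' p' q') : Sep (s + s') (fun a => p a && p' a) (fun a => q a && q' a) := by
  obtain ⟨φ, h1, h2, h3⟩ := h
  obtain ⟨ψ, k1, k2, k3⟩ := h'
  refine ⟨MF.and φ ψ, Nat.add_le_add h1 k1, ?_, ?_⟩
  · intro a ha
    simp only [Bool.and_eq_true] at ha
    simp only [MF.eval, Bool.and_eq_true]
    exact ⟨h2 a ha.1, k2 a ha.2⟩
  · intro a ha
    simp only [MF.eval, Bool.and_eq_true] at ha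
    simp only [Bool.and_eq_true]
    exact ⟨h3 a ha.1, k3 a ha.2⟩

theorem Sep.or {R : Type} {s s' : ℕ} {p q p' q' : (R → Bool) → Bool} (h : Sep s p q)
    (h' : Sep s' p' q') : Sep (s + s') (fun a => p a || p' a) (fun a => q a || q' a) := by
  obtain ⟨φ, h1, h2, h3⟩ := h
  obtain ⟨ψ, k1, k2, k3⟩ := h'
  refine ⟨MF.or φ ψ, Nat.add_le_add h1 k1, ?_, ?_⟩
  · intro a ha
    simp only [Bool.or_eq_true] at ha
    simp only [MF.eval, Bool.or_eq_true]
    exact ha.imp (h2 a) (k2 a)
  · intro a ha
    simp only [MF.eval, Bool.or_eq_true] at ha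
    simp only [Bool.or_eq_true]
    exact ha.imp (h3 a) (k3 a)

private theorem SepOps_fml {n : ℕ} (φ : MF (Fin n)) :
    (∃ b : Bool, ∀ a, φ.eval a = b) ∨
      ∃ ψ : Fml (Fin n), ψ.PosOn Set.univ ∧ (∀ x, ψ.eval x = φ.eval x) ∧ ψ.size ≤ φ.size := by
  induction φ with
  | const b => exact Or.inl ⟨b, fun _ => rfl⟩
  | var i =>
    right
    refine ⟨Fml.lit i true, fun _ => rfl, fun x => ?_, le_refl _⟩
    simp [Fml.eval, MF.eval]
  | and p q hp hq =>
    rcases hp with ⟨b, hb⟩ | ⟨ψ, h1, h2, h3⟩
    · cases b with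
      | false =>
        left
        refine ⟨false, fun a => ?_⟩
        simp [MF.eval, hb a]
      | true =>
        rcases hq with ⟨c, hc⟩ | ⟨ψ', k1, k2, k3⟩
        · left
          refine ⟨c, fun a => ?_⟩
          simp [MF.eval, hb a, hc a]
        · right
          refine ⟨ψ', k1, fun x => ?_, le_trans k3 (Nat.le_add_left _ _)⟩
          rw [k2 x]
          simp [MF.eval, hb x]
    · rcases hq with ⟨c, hc⟩ | ⟨ψ', k1, k2, k3⟩
      · cases c with
        | false =>
          left
          refine ⟨false, fun a => ?_⟩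
          simp [MF.eval, hc a]
        | true =>
          right
          refine ⟨ψ, h1, fun x => ?_, le_trans h3 (Nat.le_add_right _ _)⟩
          rw [h2 x]
          simp [MF.eval, hc x]
      · right
        refine ⟨Fml.and ψ ψ', ⟨h1, k1⟩, fun x => ?_, Nat.add_le_add h3 k3⟩
        simp only [Fml.eval, MF.eval, h2 x, k2 x]
  | or p q hp hq =>
    rcases hp with ⟨b, hb⟩ | ⟨ψ, h1, h2, h3⟩
    · cases b with
      | true =>
        left
        refine ⟨true, fun a => ?_⟩
        simp [MF.eval, hb a]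
      | false =>
        rcases hq with ⟨c, hc⟩ | ⟨ψ', k1, k2, k3⟩
        · left
          refine ⟨c, fun a => ?_⟩
          simp [MF.eval, hb a, hc a]
        · right
          refine ⟨ψ', k1, fun x => ?_, le_trans k3 (Nat.le_add_left _ _)⟩
          rw [k2 x]
          simp [MF.eval, hb x]
    · rcases hq with ⟨c, hc⟩ | ⟨ψ', k1, k2, k3⟩
      · cases c with
        | true =>
          left
          refine ⟨true, fun a => ?_⟩
          simp [MF.eval, hc a]
        | false =>
          right
          refine ⟨ψ, h1, fun x => ?_, le_trans h3 (Nat.le_add_right _ _)⟩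
          rw [h2 x]
          simp [MF.eval, hc x]
      · right
        refine ⟨Fml.or ψ ψ', ⟨h1, k1⟩, fun x => ?_, Nat.add_le_add h3 k3⟩
        simp only [Fml.eval, MF.eval, h2 x, k2 x]

/-- Separating a non-constant function from itself takes a monotone formula. -/
theorem exists_fml_of_sep {n s : ℕ} {f : (Fin n → Bool) → Bool} (hf : NonConst f)
    (h : Sep s f f) :
    ∃ φ : Fml (Fin n), φ.PosOn Set.univ ∧ (∀ x, φ.eval x = f x) ∧ φ.size ≤ s := by
  obtain ⟨φ, h1, h2, h3⟩ := h
  have he : ∀ a, φ.eval a = f a := by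
    intro a
    cases hfa : f a with
    | true => exact h2 a hfa
    | false =>
      cases hφ : φ.eval a with
      | false => rfl
      | true =>
        rw [h3 a hφ] at hfa
        exact hfa
  rcases SepOps_fml φ with ⟨b, hb⟩ | ⟨ψ, k1, k2, k3⟩
  · exfalso
    obtain ⟨⟨x, hx⟩, ⟨y, hy⟩⟩ := hf
    rw [← he x, hb x] at hx
    rw [← he y, hb y] at hy
    rw [hx] at hy
    exact absurd hy (by decide)
  · exact ⟨ψ, k1, fun x => (k2 x).trans (he x), le_trans k3 h1⟩

theorem monoSize_le_of_sep {n s : ℕ} {f : (Fin n → Bool) → Bool} (hf : NonConst f)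
    (h : Sep s f f) : monoSize f ≤ s := by
  obtain ⟨φ, h1, h2, h3⟩ := exists_fml_of_sep hf h
  exact le_trans (Nat.sInf_le ⟨φ, h1, h2, rfl⟩) h3

end MP979
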