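import Pool.Agent.Lib.MP_979eef_lc.K.Decomp
import Pool.Agent.Lib.MP_979eef_lc.Fml

/-!
# Module Pieces

The finite set of pieces (filter of the image of `Fml.exists_finset` over `Option ι` times `Bool`).
-/

set_option autoImplicit false

namespace MP979

open Finset

theorem Fml.monoIn_eval {ι : Type} {D : Set ι} {φ : Fml ι} (h : φ.PosOn D) :
    MonoIn D (fun x => φ.eval x) := by
  induction φ with
  | lit i b =>
    intro x y hxy hD hx
    simp only [Fml.eval, beq_iff_eq] at hx ⊢
    by_cases hi : i ∈ D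
    · have hb : b = true := h hi
      rw [hb] at hx ⊢
      exact hD i hi hx
    · rw [← hxy i hi]
      exact hx
  | and p q hp hq =>
    intro x y hxy hD hx
    simp only [Fml.eval, Bool.and_eq_true] at hx ⊢
    exact ⟨hp h.1 x y hxy hD hx.1, hq h.2 x y hxy hD hx.2⟩
  | or p q hp hq =>
    intro x y hxy hD hx
    simp only [Fml.eval, Bool.or_eq_true] at hx ⊢
    exact hx.imp (hp h.1 x y hxy hD) (hq h.2 x y hxy hD)

private theorem pieces_mono {ι : Type} {D : Set ι} {ψ : Fml (Option ι)} (h : ψ.PosOn (hole D)) (c : Bool) :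
    MonoIn D (fun x => ψ.eval (fun o => o.elim c x)) := by
  intro x y hxy hD hx
  refine Fml.monoIn_eval h (fun o => o.elim c x) (fun o => o.elim c y) ?_ ?_ hx
  · intro o ho
    cases o with
    | none => exact absurd (fun i hi => by cases hi) ho
    | some i =>
      refine hxy i fun hi => ho ?_
      intro j hj
      cases hj
      exact hi
  · intro o ho hxo
    cases o with
    | none => exact hxo
    | some i => exact hD i (ho i rfl) hxo

open Classical in
theorem exists_pieces {ι : Type} [Fintype ι] (D : Set ι) (ell : ℕ) :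
    ∃ P : Finset ((ι → Bool) → Bool),
      P.card ≤ 2 * (2 * Fintype.card ι + 5) ^ (2 * (ell + 1)) ∧
      (∀ h ∈ P, MonoIn D h) ∧
      (∀ ψ : Fml (Option ι), ψ.size ≤ ell + 1 → ψ.PosOn (hole D) →
        ∀ c : Bool, (fun x => ψ.eval (fun o => o.elim c x)) ∈ P) ∧
      ∀ φ : Fml ι, φ.size ≤ ell → φ.PosOn D → (fun x => φ.eval x) ∈ P := by
  obtain ⟨S, hS, hS2⟩ := Fml.exists_finset (ι := Option ι) (ell + 1)
  have third : ∀ ψ : Fml (Option ι), ψ.size ≤ ell + 1 → ψ.PosOn (hole D) →
      ∀ c : Bool, (fun x => ψ.eval (fun o => o.elim c x)) ∈ ((S ×ˢ (univ : Finset Bool)).image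
        (fun p => (fun x : ι → Bool => p.1 (fun o => o.elim p.2 x)))).filter (fun h => MonoIn D h) := by
    intro ψ hψ hp c
    rw [mem_filter, mem_image]
    exact ⟨⟨(fun x => ψ.eval x, c), mem_product.2 ⟨hS2 ψ hψ, mem_univ _⟩, rfl⟩, pieces_mono hp c⟩
  refine ⟨((S ×ˢ (univ : Finset Bool)).image
    (fun p => (fun x : ι → Bool => p.1 (fun o => o.elim p.2 x)))).filter (fun h => MonoIn D h),
    ?_, ?_, third, ?_⟩
  · refine (card_filter_le _ _).trans (card_image_le.trans ?_)
    rw [card_product, card_univ, Fintype.card_bool, mul_comm]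
    refine Nat.mul_le_mul_left 2 (hS.trans (le_of_eq ?_))
    rw [Fintype.card_option]
    ring
  · intro h hh
    exact (mem_filter.1 hh).2
  · intro φ hφ hp
    have h := third (φ.map some) (by rw [Fml.size_map]; omega) (Fml.posOn_map_some hp) true
    have e : (fun x : ι → Bool => (φ.map some).eval (fun o => o.elim true x)) = fun x => φ.eval x := by
      funext x
      rw [Fml.eval_map]
      rfl
    rw [e] at h
    exact h

end MP979
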