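import Pool.Agent.Lib.MP_979eef_lc.K.NotHard
import Pool.Agent.Lib.MP_979eef_lc.K.SepOps
import Pool.Agent.Lib.MP_979eef_lc.Fml

/-!
# Module CountF

For `Y` a set of vectors of weight `n / 2` let `f_Y x = true` iff `n / 2 < wt x` or (`wt x = n / 2`
and `x ∈ Y`): monotone, non-constant for `n ≥ 2`, and `Y ↦ f_Y` is injective on the
`2 ^ n.choose (n / 2)` sets `Y`. If `s` is the largest value of `monoSize f_Y`, all `f_Y` are
computed by formulas of size at most `s` (`Nat.sInf_mem`; nonempty by `sep_self`,
`exists_fml_of_sep`), hence lie in the set of `Fml.exists_finset` for `s`.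
-/

set_option autoImplicit false

namespace MP979

open Finset

/-- the support -/
private def cfSupp {n : ℕ} (x : Fin n → Bool) : Finset (Fin n) := univ.filter (fun k => x k = true)

/-- the function of a family of sets -/
private def cfFun {n : ℕ} (Y : Finset (Finset (Fin n))) (x : Fin n → Bool) : Bool :=
  decide (n / 2 < wt x) || (decide (wt x = n / 2) && decide (cfSupp x ∈ Y))

private theorem countf_true {n : ℕ} {Y : Finset (Finset (Fin n))} {x : Fin n → Bool} :
    cfFun Y x = true ↔ n / 2 < wt x ∨ (wt x = n / 2 ∧ cfSupp x ∈ Y) := by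
  unfold cfFun
  simp only [Bool.or_eq_true, Bool.and_eq_true, decide_eq_true_eq]

private theorem countf_mono {n : ℕ} (Y : Finset (Finset (Fin n))) : Monotone (cfFun Y) := by
  intro x y hxy
  have hsub : cfSupp x ⊆ cfSupp y := by
    intro i hi
    unfold cfSupp at hi ⊢
    rw [mem_filter] at hi ⊢
    refine ⟨mem_univ _, ?_⟩
    have h := hxy i
    rw [hi.2] at h
    exact top_le_iff.1 h
  have hwt : wt x ≤ wt y := card_le_card hsub
  have key : cfFun Y x = true → cfFun Y y = true := by
    intro h
    rw [countf_true] at h ⊢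
    rcases h with h | ⟨h1, h2⟩
    · exact Or.inl (h.trans_le hwt)
    · rcases lt_or_eq_of_le hwt with h3 | h3
      · exact Or.inl (by omega)
      · refine Or.inr ⟨by omega, ?_⟩
        have h4 : cfSupp x = cfSupp y := eq_of_subset_of_card_le hsub h3.symm.le
        rw [← h4]
        exact h2
  cases hx : cfFun Y x with
  | false => exact bot_le
  | true => rw [key hx]

private theorem countf_nonconst {n : ℕ} (hn : 2 ≤ n) (Y : Finset (Finset (Fin n))) : NonConst (cfFun Y) := by
  refine ⟨⟨fun _ => true, ?_⟩, ⟨fun _ => false, ?_⟩⟩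
  · rw [countf_true]
    left
    have h : wt (fun _ : Fin n => true) = n := by
      unfold wt
      simp
    rw [h]
    omega
  · have h : wt (fun _ : Fin n => false) = 0 := by
      unfold wt
      simp
    cases hc : cfFun Y (fun _ => false) with
    | false => rfl
    | true =>
      rw [countf_true, h] at hc
      rcases hc with hc | ⟨hc, _⟩
      · omega
      · omega

private theorem countf_indicator {n : ℕ} (A : Finset (Fin n)) : cfSupp (fun i => decide (i ∈ A)) = A := by
  unfold cfSupp
  ext i
  simp

theorem exists_hard_mono (n : ℕ) (hn : 2 ≤ n) :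
    ∃ f : (Fin n → Bool) → Bool, Monotone f ∧ NonConst f ∧
      2 ^ n.choose (n / 2) ≤ (2 * n + 3) ^ (2 * monoSize f) := by
  classical
  obtain ⟨Y0, hY0, hmax⟩ := exists_max_image ((powersetCard (n / 2) (univ : Finset (Fin n))).powerset)
    (fun Y => monoSize (cfFun Y)) ⟨∅, empty_mem_powerset _⟩
  refine ⟨cfFun Y0, countf_mono Y0, countf_nonconst hn Y0, ?_⟩
  obtain ⟨S, hS, hS2⟩ := Fml.exists_finset (ι := Fin n) (monoSize (cfFun Y0))
  rw [Fintype.card_fin] at hS
  refine le_trans ?_ hS
  have hcard : ((powersetCard (n / 2) (univ : Finset (Fin n))).powerset).card = 2 ^ n.choose (n / 2) := by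
    rw [card_powerset, card_powersetCard, card_univ, Fintype.card_fin]
  rw [← hcard]
  refine card_le_card_of_injOn (fun Y => cfFun Y) ?_ ?_
  · intro Y hY
    have hne : {s | ∃ φ : Fml (Fin n), φ.PosOn Set.univ ∧ (∀ x, φ.eval x = cfFun Y x) ∧ φ.size = s}.Nonempty := by
      obtain ⟨φ, h1, h2, _⟩ := exists_fml_of_sep (countf_nonconst hn Y) (sep_self (countf_mono Y))
      exact ⟨φ.size, φ, h1, h2, rfl⟩
    obtain ⟨φ, _, h2, h3⟩ := Nat.sInf_mem hne
    have h4 : φ.size ≤ monoSize (cfFun Y0) := by
      rw [h3]
      exact hmax Y hY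
    have h5 := hS2 φ h4
    have h6 : (fun x => φ.eval x) = cfFun Y := funext h2
    rw [h6] at h5
    exact h5
  · intro Y hY Y' hY' h
    simp only at h
    have hYs := mem_powerset.1 hY
    have hYs' := mem_powerset.1 hY'
    have key : ∀ A ∈ powersetCard (n / 2) (univ : Finset (Fin n)), ∀ Z : Finset (Finset (Fin n)),
        (A ∈ Z ↔ cfFun Z (fun i => decide (i ∈ A)) = true) := by
      intro A hA Z
      rw [countf_true, countf_indicator]
      have hw : wt (fun i => decide (i ∈ A)) = n / 2 := by
        have h1 : wt (fun i => decide (i ∈ A)) = (cfSupp (fun i => decide (i ∈ A))).card := rfl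
        rw [h1, countf_indicator]
        exact (mem_powersetCard.1 hA).2
      rw [hw]
      constructor
      · intro h; exact Or.inr ⟨rfl, h⟩
      · rintro (h | h)
        · exact absurd h (lt_irrefl _)
        · exact h.2
    ext A
    constructor
    · intro hA
      have hA' := hYs hA
      rw [key A hA' Y', ← h]
      exact (key A hA' Y).1 hA
    · intro hA
      have hA' := hYs' hA
      rw [key A hA' Y, h]
      exact (key A hA' Y').1 hA

end MP979
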