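import Pool.Agent.Lib.MP_979eef_lc.K.Defs

/-!
# Module NumC

`2 ^ n.choose (n / 2) ≤ (2 * n + 3) ^ (2 * s)` gives `2 ^ n / (n + 1) ≤ n.choose (n / 2) ≤
2 * s * log2 (2 * n + 3)` (`Nat.choose_le_middle`, `Nat.sum_range_choose`), so
`s ≥ 2 ^ n / (2 * (n + 1) * (2 * n + 3)) ≥ 2 ^ ((1 - ε) * n)` for `n` large.
-/

set_option autoImplicit false

namespace MP979

open Finset

theorem many (ε : ℝ) (hε : 0 < ε) : ∃ n0 : ℕ, ∀ n ≥ n0, ∀ s : ℕ,
    2 ^ n.choose (n / 2) ≤ (2 * n + 3) ^ (2 * s) → (2 : ℝ) ^ ((1 - ε) * n) ≤ s := by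
  have hr : (1 : ℝ) < (2 : ℝ) ^ ε := Real.one_lt_rpow (by norm_num) hε
  have h1 := (tendsto_pow_const_div_const_pow_of_one_lt 2 hr).eventually
    (gt_mem_nhds (show (0 : ℝ) < 1 / 40 by norm_num))
  obtain ⟨n1, hn1⟩ := Filter.eventually_atTop.mp h1
  refine ⟨max n1 1, fun n hn s hs => ?_⟩
  have hn1' : n1 ≤ n := le_trans (le_max_left _ _) hn
  have hn2 : 1 ≤ n := le_trans (le_max_right _ _) hn
  have hn2' : (1 : ℝ) ≤ n := by exact_mod_cast hn2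
  have h2 := hn1 n hn1'
  have hrn : 0 < ((2 : ℝ) ^ ε) ^ n := by positivity
  rw [div_lt_iff₀ hrn] at h2
  -- `2 ^ n ≤ (n + 1) * choose`
  have h3 : (2 : ℝ) ^ n ≤ (n + 1) * (n.choose (n / 2) : ℝ) := by
    have h4 : 2 ^ n ≤ (n + 1) * n.choose (n / 2) := by
      rw [← Nat.sum_range_choose n]
      calc ∑ m ∈ range (n + 1), n.choose m ≤ ∑ _m ∈ range (n + 1), n.choose (n / 2) :=
            Finset.sum_le_sum (fun m _ => Nat.choose_le_middle m n)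
        _ = (n + 1) * n.choose (n / 2) := by rw [Finset.sum_const, card_range, smul_eq_mul]
    exact_mod_cast h4
  -- taking logarithms
  have h5 : (n.choose (n / 2) : ℝ) * Real.log 2 ≤ 2 * s * Real.log (2 * n + 3) := by
    have h6 : (2 : ℝ) ^ n.choose (n / 2) ≤ (2 * n + 3) ^ (2 * s) := by exact_mod_cast hs
    have h7 := Real.log_le_log (by positivity) h6
    rw [Real.log_pow, Real.log_pow] at h7
    push_cast at h7
    exact h7
  have h8 : Real.log (2 * n + 3) ≤ 2 * n + 3 := by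
    have := Real.log_le_sub_one_of_pos (show (0 : ℝ) < 2 * n + 3 by positivity)
    linarith
  have h9 : (1 / 2 : ℝ) ≤ Real.log 2 := by
    have := Real.log_two_gt_d9
    linarith
  have hM0 : (0 : ℝ) ≤ n.choose (n / 2) := Nat.cast_nonneg _
  have hs0 : (0 : ℝ) ≤ s := Nat.cast_nonneg _
  have h10 : (n.choose (n / 2) : ℝ) ≤ 4 * s * (2 * n + 3) := by
    nlinarith [mul_le_mul_of_nonneg_left h9 hM0, mul_le_mul_of_nonneg_left h8 hs0]
  have h11 : (2 : ℝ) ^ n ≤ 40 * (n : ℝ) ^ 2 * s := by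
    have h12 : ((n : ℝ) + 1) * (n.choose (n / 2) : ℝ) ≤ (n + 1) * (4 * s * (2 * n + 3)) :=
      mul_le_mul_of_nonneg_left h10 (by positivity)
    have h13 : ((n : ℝ) + 1) * (4 * s * (2 * n + 3)) ≤ 40 * (n : ℝ) ^ 2 * s := by
      have h14 : 4 * (((n : ℝ) + 1) * (2 * n + 3)) ≤ 40 * (n : ℝ) ^ 2 := by nlinarith
      nlinarith [mul_le_mul_of_nonneg_right h14 hs0]
    linarith
  have h15 : (2 : ℝ) ^ n ≤ ((2 : ℝ) ^ ε) ^ n * s := by
    have h16 : 40 * (n : ℝ) ^ 2 ≤ ((2 : ℝ) ^ ε) ^ n := by linarith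
    exact le_trans h11 (mul_le_mul_of_nonneg_right h16 hs0)
  have h17 : (2 : ℝ) ^ ((1 - ε) * n) * ((2 : ℝ) ^ ε) ^ n = (2 : ℝ) ^ n := by
    rw [← Real.rpow_natCast ((2 : ℝ) ^ ε) n, ← Real.rpow_mul (by norm_num), ← Real.rpow_add (by norm_num),
      ← Real.rpow_natCast 2 n]
    congr 1
    ring
  rw [← h17] at h15
  have h18 : ((2 : ℝ) ^ ε) ^ n * (2 : ℝ) ^ ((1 - ε) * n) ≤ ((2 : ℝ) ^ ε) ^ n * s := by
    rw [mul_comm]; exact h15
  exact le_of_mul_le_mul_left h18 hrn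

end MP979
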