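import Pool.Agent.Lib.MP_979eef_lc.K.Defs

/-!
# Module Address

An injection of `Fin (r + m) × Fin N` into the strings of weight `r / 2` exists because there are
`r.choose (r / 2)` of them: they correspond to `powersetCard (r / 2) univ` by
`x ↦ univ.filter (x · = true)` (`Finset.card_powersetCard`), and
`Function.Embedding.nonempty_of_card_le`.
-/

set_option autoImplicit false

namespace MP979

open Finset

theorem exists_adr {r m N : ℕ} (h : (r + m) * N ≤ r.choose (r / 2)) :
    ∃ adr : Fin (r + m) → Fin N → Fin r → Bool, Adr adr := by
  classical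
  have hc : Fintype.card (Fin (r + m) × Fin N) ≤
      Fintype.card (powersetCard (r / 2) (univ : Finset (Fin r))) := by
    rw [Fintype.card_prod, Fintype.card_fin, Fintype.card_fin, Fintype.card_coe, card_powersetCard, card_univ,
      Fintype.card_fin]
    exact h
  obtain ⟨f⟩ := Function.Embedding.nonempty_of_card_le hc
  have hinj : ∀ A B : Finset (Fin r), (fun k => decide (k ∈ A)) = (fun k => decide (k ∈ B)) → A = B := by
    intro A B hAB
    ext k
    have := congrFun hAB k
    simpa using this
  refine ⟨fun i s k => decide (k ∈ (f (i, s) : Finset (Fin r))), ⟨?_, ?_⟩⟩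
  · intro i s i' s' he
    have h1 := hinj _ _ he
    have h2 := f.injective (Subtype.ext h1)
    exact ⟨congrArg Prod.fst h2, congrArg Prod.snd h2⟩
  · intro i s
    have h1 : (univ.filter (fun k : Fin r => decide (k ∈ (f (i, s) : Finset (Fin r))) = true)) = (f (i, s) : Finset (Fin r)) := by
      ext k
      simp
    unfold wt
    rw [h1]
    exact (mem_powersetCard.1 (f (i, s)).2).2

end MP979
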