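import Pool.Agent.Lib.MP_979eef_lc.K.SepOps

/-!
# Module CostOps

Closure of `Cost` under weakening, `and`, `or` (add the cost functions `s`, `Finset.sum_add_distrib`).
-/

set_option autoImplicit false

namespace MP979

open Finset

section

variable {r m N : ℕ} {adr : Fin (r + m) → Fin N → Fin r → Bool} {e : Fin (r + m) → Fin N → Fin m}

theorem Cost.mono {h : (Fin (r + m) × Fin (r + m) → Bool) → Bool} {c c' : ℕ}
    (hc : Cost adr e h c) (hcc : c ≤ c') : Cost adr e h c' := by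
  obtain ⟨s, h1, h2⟩ := hc
  exact ⟨s, h1, le_trans h2 hcc⟩

theorem Cost.and {h h' : (Fin (r + m) × Fin (r + m) → Bool) → Bool} {c c' : ℕ}
    (hc : Cost adr e h c) (hc' : Cost adr e h' c') :
    Cost adr e (fun x => h x && h' x) (c + c') := by
  obtain ⟨s, h1, h2⟩ := hc
  obtain ⟨s', h1', h2'⟩ := hc'
  refine ⟨fun σ => s σ + s' σ, fun σ => Sep.and (h1 σ) (h1' σ), ?_⟩
  rw [Finset.sum_add_distrib]
  exact Nat.add_le_add h2 h2'

theorem Cost.or {h h' : (Fin (r + m) × Fin (r + m) → Bool) → Bool} {c c' : ℕ}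
    (hc : Cost adr e h c) (hc' : Cost adr e h' c') :
    Cost adr e (fun x => h x || h' x) (c + c') := by
  obtain ⟨s, h1, h2⟩ := hc
  obtain ⟨s', h1', h2'⟩ := hc'
  refine ⟨fun σ => s σ + s' σ, fun σ => Sep.or (h1 σ) (h1' σ), ?_⟩
  rw [Finset.sum_add_distrib]
  exact Nat.add_le_add h2 h2'

end

end MP979
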