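import Pool.Agent.Lib.MP_979eef_lc.K.Defs

/-!
# Module Inner

Properties of the inner function. `gfun_mono`: if `x ≤ y` then the weight of the address part of
`x` is at most that of `y`, with equality only if the address parts are equal. `gfun_asg`: the
address part of the block is `adr i (σ i)` (`Fin.addCases_left`, `Fin.addCases_right`), of weight
`r / 2`, and equals `adr i' s'` only for `i' = i`, `s' = σ i`. `comp_low`, `comp_high` follow:
`low v a i (v i) = a i`, `high v b i (v i) = b i`.
-/

set_option autoImplicit false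

namespace MP979

open Finset

section

variable {r m N : ℕ} {adr : Fin (r + m) → Fin N → Fin r → Bool}

private theorem Inner_wt_mono {x y : Fin r → Bool} (h : ∀ k, x k = true → y k = true) : wt x ≤ wt y := by
  unfold wt
  refine Finset.card_le_card ?_
  intro k hk
  rw [Finset.mem_filter] at hk ⊢
  exact ⟨hk.1, h k hk.2⟩

private theorem Inner_wt_lt {x y : Fin r → Bool} (h : ∀ k, x k = true → y k = true) (hne : x ≠ y) :
    wt x < wt y := by
  unfold wt
  refine Finset.card_lt_card ?_
  rw [Finset.ssubset_iff_of_subset]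
  · have h1 : ∃ k, x k ≠ y k := by
      by_contra hcon
      push Not at hcon
      exact hne (funext hcon)
    obtain ⟨k, hk⟩ := h1
    refine ⟨k, ?_, ?_⟩
    · rw [Finset.mem_filter]
      refine ⟨Finset.mem_univ _, ?_⟩
      by_contra hy
      have hy' : y k = false := Bool.eq_false_iff.mpr hy
      have hx' : x k = false := by
        by_contra hx
        have := h k (Bool.eq_true_of_not_eq_false hx)
        exact hy this
      exact hk (hx'.trans hy'.symm)
    · rw [Finset.mem_filter]
      rintro ⟨_, hx⟩
      exact hk (hx.trans (h k hx).symm)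
  · intro k hk
    rw [Finset.mem_filter] at hk ⊢
    exact ⟨hk.1, h k hk.2⟩

theorem gfun_mono (ha : Adr adr) (e : Fin (r + m) → Fin N → Fin m) : Monotone (gfun adr e) := by
  intro x y hxy
  have hxy' : ∀ j, x j = true → y j = true := by
    intro j hj
    have h1 := hxy j
    rw [hj] at h1
    exact top_le_iff.mp h1
  have hadr : ∀ k : Fin r, (fun k : Fin r => x (Fin.castAdd m k)) k = true →
      (fun k : Fin r => y (Fin.castAdd m k)) k = true := fun k hk => hxy' _ hk
  rw [Bool.le_iff_imp]
  intro h
  unfold gfun at h ⊢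
  rw [Bool.or_eq_true, decide_eq_true_eq, decide_eq_true_eq] at h ⊢
  rcases h with h | ⟨i, s, h1, h2⟩
  · left
    exact lt_of_lt_of_le h (Inner_wt_mono hadr)
  · by_cases heq : (fun k : Fin r => x (Fin.castAdd m k)) = (fun k : Fin r => y (Fin.castAdd m k))
    · right
      exact ⟨i, s, heq.symm.trans h1, hxy' _ h2⟩
    · left
      have h3 := Inner_wt_lt hadr heq
      rw [h1, ha.wt_eq] at h3
      exact h3

private theorem Inner_block (ha : Adr adr) (e : Fin (r + m) → Fin N → Fin m) (i : Fin (r + m)) (s : Fin N)
    (S : Fin m → Bool) (x : Fin (r + m) → Bool) (hx1 : ∀ k : Fin r, x (Fin.castAdd m k) = adr i s k)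
    (hx2 : ∀ j : Fin m, x (Fin.natAdd r j) = S j) : gfun adr e x = S (e i s) := by
  unfold gfun
  have h1 : (fun k : Fin r => x (Fin.castAdd m k)) = adr i s := funext hx1
  rw [h1, ha.wt_eq]
  have h2 : decide (r / 2 < r / 2) = false := by
    rw [decide_eq_false_iff_not]
    exact lt_irrefl _
  rw [h2, Bool.false_or]
  cases hS : S (e i s)
  · rw [decide_eq_false_iff_not]
    rintro ⟨i', s', h3, h4⟩
    obtain ⟨h5, h6⟩ := ha.inj _ _ _ _ h3
    rw [hx2, ← h5, ← h6, hS] at h4
    exact Bool.false_ne_true h4
  · rw [decide_eq_true_eq]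
    exact ⟨i, s, rfl, by rw [hx2, hS]⟩

/-- The value of the inner function on a block of `asg`. -/
theorem gfun_asg (ha : Adr adr) (e : Fin (r + m) → Fin N → Fin m) (σ : Fin (r + m) → Fin N)
    (S : Fin (r + m) → Fin m → Bool) (i : Fin (r + m)) :
    gfun adr e (fun j => asg adr σ S (i, j)) = S i (pick e σ i) := by
  refine Inner_block ha e i (σ i) (S i) _ (fun k => ?_) (fun j => ?_)
  · unfold asg
    simp only [Fin.addCases_left]
  · unfold asg
    simp only [Fin.addCases_right]

theorem gfun_nonConst (ha : Adr adr) (hn : 0 < r + m) (hN : 0 < N)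
    (e : Fin (r + m) → Fin N → Fin m) : NonConst (gfun adr e) := by
  constructor
  · exact ⟨_, gfun_asg ha e (fun _ => ⟨0, hN⟩) (fun _ _ => true) ⟨0, hn⟩⟩
  · exact ⟨_, gfun_asg ha e (fun _ => ⟨0, hN⟩) (fun _ _ => false) ⟨0, hn⟩⟩

theorem comp_low (ha : Adr adr) (e : Fin (r + m) → Fin N → Fin m) (σ : Fin (r + m) → Fin N)
    (f : (Fin (r + m) → Bool) → Bool) (a : Fin (r + m) → Bool) :
    comp f (gfun adr e) (asg adr σ (low (pick e σ) a)) = f a := by
  unfold comp
  congr 1
  funext i
  rw [gfun_asg ha]
  unfold low
  rw [decide_eq_true (rfl : pick e σ i = pick e σ i), Bool.and_true]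

theorem comp_high (ha : Adr adr) (e : Fin (r + m) → Fin N → Fin m) (σ : Fin (r + m) → Fin N)
    (f : (Fin (r + m) → Bool) → Bool) (b : Fin (r + m) → Bool) :
    comp f (gfun adr e) (asg adr σ (high (pick e σ) b)) = f b := by
  unfold comp
  congr 1
  funext i
  rw [gfun_asg ha]
  unfold high
  rw [decide_eq_false (fun h => h rfl : ¬ (pick e σ i ≠ pick e σ i)), Bool.or_false]

/-- A function which is monotone in the data variables is monotone in the table. -/
theorem monoTab_asg {h : (Fin (r + m) × Fin (r + m) → Bool) → Bool} (hh : MonoIn (dat r m) h)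
    (σ : Fin (r + m) → Fin N) : MonoTab (fun S => h (asg adr σ S)) := by
  intro S T hST hS
  refine hh (asg adr σ S) (asg adr σ T) ?_ ?_ hS
  · rintro ⟨i, j⟩ hp
    induction j using Fin.addCases with
    | left k =>
      unfold asg
      simp only [Fin.addCases_left]
    | right k =>
      refine absurd ?_ hp
      unfold dat
      simp only [Set.mem_setOf_eq, Fin.val_natAdd]
      omega
  · rintro ⟨i, j⟩ hp hx
    induction j using Fin.addCases with
    | left k =>
      exfalso
      unfold dat at hp
      simp only [Set.mem_setOf_eq, Fin.val_castAdd] at hp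
      have := k.2
      omega
    | right k =>
      unfold asg at hx ⊢
      simp only [Fin.addCases_right] at hx ⊢
      exact hST i k hx

end

end MP979
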