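import Pool.Agent.Lib.MP_979eef_lc.K.NotHard
import Pool.Agent.Lib.MP_979eef_lc.K.SepOps
import Pool.Agent.Lib.MP_979eef_lc.K.Inner

/-!
# Module Piece

`s σ = n * 2 ^ n` if hard (`sep_trivial`), `t * nsub n t` otherwise (`sep_of_not_hard`), `n = r + m`,
with `H = fun S => h (asg adr σ S)` (`monoTab_asg`); the sum is at most
`N ^ n * (t * nsub n t) + Z * n * 2 ^ n`, `Z` the number of hard `σ`.
-/

set_option autoImplicit false

namespace MP979

open Finset

open Classical in
theorem cost_piece {r m N : ℕ} {adr : Fin (r + m) → Fin N → Fin r → Bool}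
    {e : Fin (r + m) → Fin N → Fin m} {t : ℕ}
    {h : (Fin (r + m) × Fin (r + m) → Bool) → Bool} (hh : MonoIn (dat r m) h)
    (hz : (univ.filter (fun σ : Fin (r + m) → Fin N =>
        Hard t (fun S => h (asg adr σ S)) (pick e σ))).card * 2 ^ (r + m) ≤ N ^ (r + m)) :
    Cost adr e h (N ^ (r + m) * (t * nsub (r + m) t + (r + m))) := by
  refine ⟨fun σ => if Hard t (fun S => h (asg adr σ S)) (pick e σ) then (r + m) * 2 ^ (r + m) else
    t * nsub (r + m) t, fun σ => ?_, ?_⟩
  · have hm : MonoTab (fun S => h (asg adr σ S)) := monoTab_asg hh σ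
    by_cases hH : Hard t (fun S => h (asg adr σ S)) (pick e σ)
    · simp only [if_pos hH]
      exact sep_trivial _ hm _
    · simp only [if_neg hH]
      exact sep_of_not_hard _ hm _ hH
  · rw [sum_ite, sum_const, sum_const, smul_eq_mul, smul_eq_mul]
    have h1 : (univ.filter (fun σ : Fin (r + m) → Fin N =>
        ¬ Hard t (fun S => h (asg adr σ S)) (pick e σ))).card ≤ N ^ (r + m) := by
      refine le_trans (card_filter_le _ _) ?_
      rw [card_univ, Fintype.card_fun, Fintype.card_fin, Fintype.card_fin]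
    have h2 := Nat.mul_le_mul_right (t * nsub (r + m) t) h1
    have h3 := Nat.mul_le_mul_left (r + m) hz
    rw [mul_add]
    have e1 : (r + m) * ((univ.filter (fun σ : Fin (r + m) → Fin N =>
        Hard t (fun S => h (asg adr σ S)) (pick e σ))).card * 2 ^ (r + m)) =
        (univ.filter (fun σ : Fin (r + m) → Fin N =>
        Hard t (fun S => h (asg adr σ S)) (pick e σ))).card * ((r + m) * 2 ^ (r + m)) := by ring
    rw [e1] at h3
    have e2 : (r + m) * N ^ (r + m) = N ^ (r + m) * (r + m) := mul_comm _ _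
    omega

end MP979
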