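import Pool.Agent.Lib.MP_979eef_lc.K.Select
import Pool.Agent.Lib.MP_979eef_lc.K.Piece
import Pool.Agent.Lib.MP_979eef_lc.K.CostOps
import Pool.Agent.Lib.MP_979eef_lc.K.Pieces
import Pool.Agent.Lib.MP_979eef_lc.K.Address

/-!
# Module Compose

Pieces from `exists_pieces`, `e` from `select`; `F.size > ell` since `F` is no piece;
`decomp` with `B = Cost adr e`, `M = N ^ n * (t * nsub n t + n)`; `comp_low`, `comp_high` and
`monoSize_le_of_sep` give `N ^ n * monoSize f ≤ (K + 2) * M`.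
-/

set_option autoImplicit false

namespace MP979

open Finset

theorem compose {r m N : ℕ} (hm : 0 < m) (hN : 0 < N) (t1 ell : ℕ) (ht1 : 1 ≤ t1)
    (hell : 1 ≤ ell) (hadr : (r + m) * N ≤ r.choose (r / 2))
    (hc : (2 * (2 * ((r + m : ℕ) : ℝ) ^ 2 + 5) ^ (2 * (ell + 1))) *
      ((2 : ℝ) ^ (r + m) * (2 ^ (r + m) * (((ell + 1 : ℕ) : ℝ) / N) ^ t1 +
      4 ^ (r + m) / (m : ℝ) ^ t1)) ^ (ell + 1) < 1 / 2)
    (hcard : 2 * (2 * (2 * (r + m) ^ 2 + 5) ^ (2 * (ell + 1))) < m ^ ((r + m) * N)) :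
    ∃ g : (Fin (r + m) → Bool) → Bool, Monotone g ∧ NonConst g ∧
      ∀ f : (Fin (r + m) → Bool) → Bool, NonConst f →
        ∀ F : Fml (Fin (r + m) × Fin (r + m)), F.PosOn (dat r m) →
          (∀ x, F.eval x = comp f g x) →
          monoSize f * ell ≤
            6 * ((2 * t1 - 1) * nsub (r + m) (2 * t1 - 1) + (r + m)) * F.size := by
  classical
  obtain ⟨adr, ha⟩ := exists_adr (r := r) (m := m) (N := N) hadr
  obtain ⟨P, hPc, hPm, hPp, hPf⟩ := exists_pieces (dat r m) ell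
  have hvars : Fintype.card (Fin (r + m) × Fin (r + m)) = (r + m) ^ 2 := by
    rw [Fintype.card_prod, Fintype.card_fin, sq]
  rw [hvars] at hPc
  have hc' : (P.card : ℝ) * ((2 : ℝ) ^ (r + m) * (2 ^ (r + m) * (((ell + 1 : ℕ) : ℝ) / N) ^ t1 +
      4 ^ (r + m) / (m : ℝ) ^ t1)) ^ (ell + 1) < 1 / 2 := by
    refine lt_of_le_of_lt ?_ hc
    refine mul_le_mul_of_nonneg_right ?_ (by positivity)
    exact_mod_cast hPc
  have hcard' : 2 * P.card < m ^ ((r + m) * N) :=
    lt_of_le_of_lt (Nat.mul_le_mul_left 2 hPc) hcard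
  obtain ⟨e, he1, he2⟩ := select ha hm hN t1 (ell + 1) ht1 P hPm hc' hcard'
  refine ⟨gfun adr e, gfun_mono ha e, gfun_nonConst ha (by omega) hN e, ?_⟩
  intro f hf F hF hFc
  have hFe : (fun x => F.eval x) = comp f (gfun adr e) := funext hFc
  set M : ℕ := N ^ (r + m) * ((2 * t1 - 1) * nsub (r + m) (2 * t1 - 1) + (r + m)) with hM
  have hdec := decomp (dat r m) ell hell (Cost adr e) (fun h c c' hcc hb => hb.mono hcc)
    (fun h h' c c' hb hb' => hb.and hb') (fun h h' c c' hb hb' => hb.or hb') M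
    (fun ψ hψ hψp c => cost_piece (hPm _ (hPp ψ hψ hψp c)) (le_of_lt (he1 _ (hPp ψ hψ hψp c))))
    F hF
  rcases hdec with hsmall | ⟨K, hK1, hK2⟩
  · exact absurd (hFe ▸ hPf F hsmall hF) (he2 f hf)
  · obtain ⟨s, hs1, hs2⟩ := hK2
    have h1 : ∀ σ, monoSize f ≤ s σ := by
      intro σ
      refine monoSize_le_of_sep hf ?_
      have h2 := hs1 σ
      have h3 : (fun a => F.eval (asg adr σ (low (pick e σ) a))) = f := by
        funext a
        rw [hFc, comp_low ha]
      have h4 : (fun b => F.eval (asg adr σ (high (pick e σ) b))) = f := by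
        funext b
        rw [hFc, comp_high ha]
      rw [h3, h4] at h2
      exact h2
    have h5 : N ^ (r + m) * monoSize f ≤ (K + 2) * M := by
      refine le_trans ?_ hs2
      calc N ^ (r + m) * monoSize f = ∑ _σ : Fin (r + m) → Fin N, monoSize f := by
            rw [sum_const, card_univ, Fintype.card_fun, Fintype.card_fin, Fintype.card_fin,
              smul_eq_mul]
        _ ≤ _ := sum_le_sum (fun σ _ => h1 σ)
    have h6 : 0 < N ^ (r + m) := Nat.pow_pos hN
    have h7 : monoSize f ≤ (K + 2) * ((2 * t1 - 1) * nsub (r + m) (2 * t1 - 1) + (r + m)) := by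
      refine Nat.le_of_mul_le_mul_left ?_ h6
      refine le_trans h5 (le_of_eq ?_)
      rw [hM]
      ring
    calc monoSize f * ell
        ≤ (K + 2) * ((2 * t1 - 1) * nsub (r + m) (2 * t1 - 1) + (r + m)) * ell :=
          Nat.mul_le_mul_right _ h7
      _ = ((K + 2) * ell) * ((2 * t1 - 1) * nsub (r + m) (2 * t1 - 1) + (r + m)) := by ring
      _ ≤ (6 * F.size) * ((2 * t1 - 1) * nsub (r + m) (2 * t1 - 1) + (r + m)) := by
          refine Nat.mul_le_mul_right _ (le_trans ?_ hK1)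
          exact Nat.mul_le_mul_right _ (by omega)
      _ = _ := by ring

end MP979
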