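import Pool.Agent.Lib.MP_979eef_lc.K.Defs

/-!
# Module Decomp

`B h c` says that the function `h` has cost at most `c`, closed under `and`, `or`, weakening; every piece
(formula of size at most `ell + 1` with one more variable `none`, replaced by a constant) costs `M`.
Invariant by induction over `F`: `F.size ≤ ell`, or there are a formula `ψ` over `Option ι`,
positive on `hole D`, a function `G` and `K` with `F.eval x = ψ.eval (none := G x)`, `B G (K * M)`,
`ψ.size ≤ ell + 1`, `K * ell + 4 * ell + 6 * (ψ.size - 1) ≤ 6 * F.size`. Here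
`ψ.eval (none := G x) = ψ.eval (none := false) || (G x && ψ.eval (none := true))` (`hole_split`), so
closing costs `(K + 2) * M`.
 * both parts small, sum of sizes `> ell`: `G := F`, `ψ = lit none true`, `K = 2`;
 * hole part `(ψ1, G1, K1)` and small part of size `s2`: if `ψ1.size + s2 ≤ ell + 1`,
   `ψ := ψ1 ∘ F2` (`F2` mapped by `some`), otherwise `G := F`, `K = K1 + 3`;
 * two hole parts: `G := F`, `K = K1 + K2 + 4`.
A small formula is a piece (`Fml.map some`).
-/

set_option autoImplicit false

namespace MP979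

open Finset

/-- Renaming variables. -/
def Fml.map {ι κ : Type} (g : ι → κ) : Fml ι → Fml κ
  | .lit i b => .lit (g i) b
  | .and p q => .and (p.map g) (q.map g)
  | .or p q => .or (p.map g) (q.map g)

theorem Fml.eval_map {ι κ : Type} (g : ι → κ) (x : κ → Bool) (φ : Fml ι) :
    (φ.map g).eval x = φ.eval (fun i => x (g i)) := by
  induction φ with
  | lit i b => rfl
  | and p q hp hq => simp only [Fml.map, Fml.eval, hp, hq]
  | or p q hp hq => simp only [Fml.map, Fml.eval, hp, hq]

theorem Fml.size_map {ι κ : Type} (g : ι → κ) (φ : Fml ι) : (φ.map g).size = φ.size := by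
  induction φ with
  | lit i b => rfl
  | and p q hp hq => simp only [Fml.map, Fml.size, hp, hq]
  | or p q hp hq => simp only [Fml.map, Fml.size, hp, hq]

theorem Fml.posOn_map_some {ι : Type} {D : Set ι} {φ : Fml ι} (h : φ.PosOn D) :
    (φ.map some).PosOn (hole D) := by
  induction φ with
  | lit i b =>
    intro hi
    exact h (hi i rfl)
  | and p q hp hq => exact ⟨hp h.1, hq h.2⟩
  | or p q hp hq => exact ⟨hp h.1, hq h.2⟩

private theorem decomp_mono {ι : Type} {D : Set ι} {ψ : Fml (Option ι)} (h : ψ.PosOn (hole D))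
    (x : ι → Bool) (h0 : ψ.eval (fun o => o.elim false x) = true) :
    ψ.eval (fun o => o.elim true x) = true := by
  induction ψ with
  | lit o b =>
    cases o with
    | none =>
      have hb : b = true := h (fun i hi => by cases hi)
      subst hb
      rfl
    | some i => exact h0
  | and p q hp hq =>
    simp only [Fml.eval, Bool.and_eq_true] at h0 ⊢
    exact ⟨hp h.1 h0.1, hq h.2 h0.2⟩
  | or p q hp hq =>
    simp only [Fml.eval, Bool.or_eq_true] at h0 ⊢
    exact h0.imp (hp h.1) (hq h.2)

theorem hole_split {ι : Type} {D : Set ι} {ψ : Fml (Option ι)} (h : ψ.PosOn (hole D))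
    (x : ι → Bool) (c : Bool) :
    ψ.eval (fun o => o.elim c x) =
      (ψ.eval (fun o => o.elim false x) || (c && ψ.eval (fun o => o.elim true x))) := by
  cases c with
  | false => simp
  | true =>
    have hm := decomp_mono h x
    cases h0 : ψ.eval (fun o => o.elim false x) with
    | false => simp
    | true =>
      rw [hm h0]
      simp

/-- the invariant -/
private def DSt {ι : Type} (D : Set ι) (ell : ℕ) (B : ((ι → Bool) → Bool) → ℕ → Prop) (M : ℕ) (F : Fml ι) : Prop :=
  F.size ≤ ell ∨ ∃ (ψ : Fml (Option ι)) (G : (ι → Bool) → Bool) (K : ℕ),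
    (∀ x, F.eval x = ψ.eval (fun o => o.elim (G x) x)) ∧ B G (K * M) ∧ ψ.PosOn (hole D) ∧ ψ.size ≤ ell + 1 ∧
      K * ell + 4 * ell + 6 * ψ.size ≤ 6 * F.size + 6

private theorem decomp_small {ι : Type} (D : Set ι) (ell : ℕ)
    (B : ((ι → Bool) → Bool) → ℕ → Prop) (M : ℕ)
    (hpiece : ∀ ψ : Fml (Option ι), ψ.size ≤ ell + 1 → ψ.PosOn (hole D) →
      ∀ c : Bool, B (fun x => ψ.eval (fun o => o.elim c x)) M)
    (F : Fml ι) (hF : F.PosOn D) (hs : F.size ≤ ell) : B (fun x => F.eval x) M := by
  have h := hpiece (F.map some) (by rw [Fml.size_map]; omega) (Fml.posOn_map_some hF) true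
  have e : (fun x : ι → Bool => (F.map some).eval (fun o => o.elim true x)) = fun x => F.eval x := by
    funext x
    rw [Fml.eval_map]
    rfl
  rw [e] at h
  exact h

private theorem decomp_close {ι : Type} (D : Set ι) (ell : ℕ)
    (B : ((ι → Bool) → Bool) → ℕ → Prop)
    (hand : ∀ h h' c c', B h c → B h' c' → B (fun x => h x && h' x) (c + c'))
    (hor : ∀ h h' c c', B h c → B h' c' → B (fun x => h x || h' x) (c + c'))
    (M : ℕ) (hpiece : ∀ ψ : Fml (Option ι), ψ.size ≤ ell + 1 → ψ.PosOn (hole D) →
      ∀ c : Bool, B (fun x => ψ.eval (fun o => o.elim c x)) M)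
    (F : Fml ι) (ψ : Fml (Option ι)) (G : (ι → Bool) → Bool) (K : ℕ)
    (hF : ∀ x, F.eval x = ψ.eval (fun o => o.elim (G x) x)) (hG : B G (K * M)) (hψ : ψ.PosOn (hole D))
    (hs : ψ.size ≤ ell + 1) : B (fun x => F.eval x) ((K + 2) * M) := by
  have h1 := hpiece ψ hs hψ false
  have h2 := hpiece ψ hs hψ true
  have h3 := hor _ _ _ _ h1 (hand _ _ _ _ hG h2)
  have e : (fun x : ι → Bool => (ψ.eval (fun o => o.elim false x) || (G x && ψ.eval (fun o => o.elim true x)))) =
      fun x => F.eval x := by
    funext x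
    rw [hF x, hole_split hψ x (G x)]
  rw [e] at h3
  have e2 : M + (K * M + M) = (K + 2) * M := by ring
  rw [e2] at h3
  exact h3

private theorem Fml_size_pos {ι : Type} (φ : Fml ι) : 1 ≤ φ.size := by
  induction φ with
  | lit i b => exact le_refl _
  | and p q hp hq => simp only [Fml.size]; omega
  | or p q hp hq => simp only [Fml.size]; omega

private theorem decomp_step {ι : Type} (D : Set ι) (ell : ℕ)
    (B : ((ι → Bool) → Bool) → ℕ → Prop)
    (hand : ∀ h h' c c', B h c → B h' c' → B (fun x => h x && h' x) (c + c'))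
    (hor : ∀ h h' c c', B h c → B h' c' → B (fun x => h x || h' x) (c + c'))
    (M : ℕ) (hpiece : ∀ ψ : Fml (Option ι), ψ.size ≤ ell + 1 → ψ.PosOn (hole D) →
      ∀ c : Bool, B (fun x => ψ.eval (fun o => o.elim c x)) M)
    (op : Bool → Bool → Bool)
    (hop : ∀ h h' c c', B h c → B h' c' → B (fun x => op (h x) (h' x)) (c + c'))
    (F p q : Fml ι) (C : Fml (Option ι) → Fml (Option ι) → Fml (Option ι))
    (hF : ∀ x, F.eval x = op (p.eval x) (q.eval x)) (hs : F.size = p.size + q.size)
    (hCe : ∀ a b x, (C a b).eval x = op (a.eval x) (b.eval x))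
    (hCs : ∀ a b, (C a b).size = a.size + b.size)
    (hCp : ∀ a b, a.PosOn (hole D) → b.PosOn (hole D) → (C a b).PosOn (hole D))
    (hp : p.PosOn D) (hq : q.PosOn D) (sp : DSt D ell B M p) (sq : DSt D ell B M q) :
    DSt D ell B M F := by
  have eF : (fun x => op (p.eval x) (q.eval x)) = fun x => F.eval x := by
    funext x
    rw [hF x]
  have hlit : (Fml.lit none true : Fml (Option ι)).PosOn (hole D) := fun _ => rfl
  have elit : ∀ x : ι → Bool, F.eval x =
      (Fml.lit none true : Fml (Option ι)).eval (fun o => o.elim (F.eval x) x) := by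
    intro x
    simp [Fml.eval]
  have slit : (Fml.lit none true : Fml (Option ι)).size = 1 := rfl
  rcases sp with sp | ⟨ψ1, G1, K1, e1, b1, o1, s1, i1⟩
  · rcases sq with sq | ⟨ψ2, G2, K2, e2, b2, o2, s2, i2⟩
    · by_cases hle : F.size ≤ ell
      · exact Or.inl hle
      · right
        have hb := hop _ _ _ _ (decomp_small D ell B M hpiece p hp sp) (decomp_small D ell B M hpiece q hq sq)
        rw [eF] at hb
        refine ⟨Fml.lit none true, fun x => F.eval x, 2, elit, ?_, hlit, ?_, ?_⟩
        · rw [two_mul]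
          exact hb
        · rw [slit]; omega
        · rw [slit]; omega
    · right
      have hbp := decomp_small D ell B M hpiece p hp sp
      have hbq := decomp_close D ell B hand hor M hpiece q ψ2 G2 K2 e2 b2 o2 s2
      by_cases hle : p.size + ψ2.size ≤ ell + 1
      · refine ⟨C (p.map some) ψ2, G2, K2, ?_, b2, hCp _ _ (Fml.posOn_map_some hp) o2, ?_, ?_⟩
        · intro x
          rw [hF x, hCe, Fml.eval_map, ← e2 x]
          rfl
        · rw [hCs, Fml.size_map]; exact hle
        · rw [hCs, Fml.size_map, hs]; omega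
      · have hb := hop _ _ _ _ hbp hbq
        rw [eF] at hb
        refine ⟨Fml.lit none true, fun x => F.eval x, K2 + 3, elit, ?_, hlit, ?_, ?_⟩
        · have e : M + (K2 + 2) * M = (K2 + 3) * M := by ring
          rw [e] at hb
          exact hb
        · rw [slit]; omega
        · rw [slit, add_mul, hs]; omega
  · have hbp := decomp_close D ell B hand hor M hpiece p ψ1 G1 K1 e1 b1 o1 s1
    rcases sq with sq | ⟨ψ2, G2, K2, e2, b2, o2, s2, i2⟩
    · right
      have hbq := decomp_small D ell B M hpiece q hq sq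
      by_cases hle : ψ1.size + q.size ≤ ell + 1
      · refine ⟨C ψ1 (q.map some), G1, K1, ?_, b1, hCp _ _ o1 (Fml.posOn_map_some hq), ?_, ?_⟩
        · intro x
          rw [hF x, hCe, Fml.eval_map, ← e1 x]
          rfl
        · rw [hCs, Fml.size_map]; exact hle
        · rw [hCs, Fml.size_map, hs]; omega
      · have hb := hop _ _ _ _ hbp hbq
        rw [eF] at hb
        refine ⟨Fml.lit none true, fun x => F.eval x, K1 + 3, elit, ?_, hlit, ?_, ?_⟩
        · have e : (K1 + 2) * M + M = (K1 + 3) * M := by ring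
          rw [e] at hb
          exact hb
        · rw [slit]; omega
        · rw [slit, add_mul, hs]; omega
    · right
      have hbq := decomp_close D ell B hand hor M hpiece q ψ2 G2 K2 e2 b2 o2 s2
      have hb := hop _ _ _ _ hbp hbq
      rw [eF] at hb
      have q1 := Fml_size_pos ψ1
      have q2 := Fml_size_pos ψ2
      refine ⟨Fml.lit none true, fun x => F.eval x, K1 + K2 + 4, elit, ?_, hlit, ?_, ?_⟩
      · have e : (K1 + 2) * M + (K2 + 2) * M = (K1 + K2 + 4) * M := by ring
        rw [e] at hb
        exact hb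
      · rw [slit]; omega
      · rw [slit, add_mul, add_mul, hs]; omega

theorem decomp {ι : Type} (D : Set ι) (ell : ℕ) (hell : 1 ≤ ell)
    (B : ((ι → Bool) → Bool) → ℕ → Prop)
    (hmono : ∀ h c c', c ≤ c' → B h c → B h c')
    (hand : ∀ h h' c c', B h c → B h' c' → B (fun x => h x && h' x) (c + c'))
    (hor : ∀ h h' c c', B h c → B h' c' → B (fun x => h x || h' x) (c + c'))
    (M : ℕ) (hpiece : ∀ ψ : Fml (Option ι), ψ.size ≤ ell + 1 → ψ.PosOn (hole D) →
      ∀ c : Bool, B (fun x => ψ.eval (fun o => o.elim c x)) M)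
    (F : Fml ι) (hF : F.PosOn D) :
    F.size ≤ ell ∨ ∃ K : ℕ, (K + 4) * ell ≤ 6 * F.size ∧ B (fun x => F.eval x) ((K + 2) * M) := by
  have main : ∀ F : Fml ι, F.PosOn D → DSt D ell B M F := by
    intro F
    induction F with
    | lit i b => exact fun _ => Or.inl hell
    | and p q hp hq =>
      intro h
      exact decomp_step D ell B hand hor M hpiece (fun a b => a && b) hand _ p q Fml.and (fun _ => rfl) rfl
        (fun _ _ _ => rfl) (fun _ _ => rfl) (fun _ _ ha hb => ⟨ha, hb⟩) h.1 h.2 (hp h.1) (hq h.2)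
    | or p q hp hq =>
      intro h
      exact decomp_step D ell B hand hor M hpiece (fun a b => a || b) hor _ p q Fml.or (fun _ => rfl) rfl
        (fun _ _ _ => rfl) (fun _ _ => rfl) (fun _ _ ha hb => ⟨ha, hb⟩) h.1 h.2 (hp h.1) (hq h.2)
  rcases main F hF with h | ⟨ψ, G, K, e, b, o, s, i⟩
  · exact Or.inl h
  · right
    have q1 := Fml_size_pos ψ
    refine ⟨K, ?_, decomp_close D ell B hand hor M hpiece F ψ G K e b o s⟩
    rw [add_mul]
    omega

end MP979
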