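import Pool.Agent.Lib.MP_979eef_lc.Defs

/-!
# Composition of monotone formulas: notions

The proof is written in /team-store/MONOKRW.md.
-/

set_option autoImplicit false

namespace MP979

open Finset

/-- No variable of `D` occurs negated in the formula. -/
def Fml.PosOn {ι : Type} (D : Set ι) : Fml ι → Prop
  | .lit i b => i ∈ D → b = true
  | .and p q => p.PosOn D ∧ q.PosOn D
  | .or p q => p.PosOn D ∧ q.PosOn D

/-- The least size of a monotone formula for `f`. -/
noncomputable def monoSize {n : ℕ} (f : (Fin n → Bool) → Bool) : ℕ :=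
  sInf {s | ∃ φ : Fml (Fin n), φ.PosOn Set.univ ∧ (∀ x, φ.eval x = f x) ∧ φ.size = s}

/-- Monotone formulas with constants, over the rows `R`. -/
inductive MF (R : Type) : Type
  | const (b : Bool) : MF R
  | var (i : R) : MF R
  | and (p q : MF R) : MF R
  | or (p q : MF R) : MF R

namespace MF

variable {R : Type}

/-- Value at `a`. -/
def eval (a : R → Bool) : MF R → Bool
  | const b => b
  | var i => a i
  | and p q => eval a p && eval a q
  | or p q => eval a p || eval a q

/-- Number of variable leaves; constants are free. -/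
def size : MF R → ℕ
  | const _ => 0
  | var _ => 1
  | and p q => size p + size q
  | or p q => size p + size q

end MF

/-- `p` and `q` are separated by a monotone formula of size at most `s`. -/
def Sep {R : Type} (s : ℕ) (p q : (R → Bool) → Bool) : Prop :=
  ∃ φ : MF R, φ.size ≤ s ∧ (∀ a, p a = true → φ.eval a = true) ∧
    ∀ a, φ.eval a = true → q a = true

variable {n m : ℕ}

/-- Light table: row `i` is `{v i}` if `a i`, and empty otherwise. -/
def low (v : Fin n → Fin m) (a : Fin n → Bool) (i : Fin n) (j : Fin m) : Bool :=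
  a i && decide (j = v i)

/-- Heavy table: row `i` is everything if `b i`, and everything but `v i` otherwise. -/
def high (v : Fin n → Fin m) (b : Fin n → Bool) (i : Fin n) (j : Fin m) : Bool :=
  b i || decide (j ≠ v i)

/-- Monotone functions of a table. -/
def MonoTab (H : (Fin n → Fin m → Bool) → Bool) : Prop :=
  ∀ S T : Fin n → Fin m → Bool, (∀ i j, S i j = true → T i j = true) → H S = true → H T = true

/-- `α` is robustly undecided: see MONOKRW.md. -/
def Hard (t : ℕ) (H : (Fin n → Fin m → Bool) → Bool) (v : Fin n → Fin m) : Prop :=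
  ∃ α : Fin n → Bool, ∀ A : Finset (Fin n), A.card ≤ t →
    H (low v (fun i => if i ∈ A then α i else true)) = true ∧
      H (high v (fun i => if i ∈ A then α i else false)) = false

/-- Number of sets of at most `t` rows. -/
def nsub (n t : ℕ) : ℕ := (univ.filter (fun A : Finset (Fin n) => A.card ≤ t)).card

/-- `h` is monotone in the variables of `D` (all other variables fixed). -/
def MonoIn {ι : Type} (D : Set ι) (h : (ι → Bool) → Bool) : Prop :=
  ∀ x y : ι → Bool, (∀ i, i ∉ D → x i = y i) → (∀ i ∈ D, x i = true → y i = true) →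
    h x = true → h y = true

/-- The variables of `D` and the hole `none`. -/
def hole {ι : Type} (D : Set ι) : Set (Option ι) := {o | ∀ i, o = some i → i ∈ D}

/-- Number of ones. -/
def wt {r : ℕ} (x : Fin r → Bool) : ℕ := (univ.filter (fun k => x k = true)).card

/-- The inner function: `r` address bits, `m` data bits. -/
def gfun {r m N : ℕ} (adr : Fin (r + m) → Fin N → Fin r → Bool) (e : Fin (r + m) → Fin N → Fin m)
    (x : Fin (r + m) → Bool) : Bool :=
  decide (r / 2 < wt (fun k : Fin r => x (Fin.castAdd m k))) ||
    decide (∃ i s, (fun k : Fin r => x (Fin.castAdd m k)) = adr i s ∧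
      x (Fin.natAdd r (e i s)) = true)

/-- The addresses are different strings of weight `r / 2`. -/
structure Adr {r m N : ℕ} (adr : Fin (r + m) → Fin N → Fin r → Bool) : Prop where
  inj : ∀ i s i' s', adr i s = adr i' s' → i = i' ∧ s = s'
  wt_eq : ∀ i s, wt (adr i s) = r / 2

/-- The input with addresses `adr i (σ i)` and data table `S`. -/
def asg {r m N : ℕ} (adr : Fin (r + m) → Fin N → Fin r → Bool) (σ : Fin (r + m) → Fin N)
    (S : Fin (r + m) → Fin m → Bool) (p : Fin (r + m) × Fin (r + m)) : Bool :=
  Fin.addCases (motive := fun _ => Bool) (fun k : Fin r => adr p.1 (σ p.1) k)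
    (fun j : Fin m => S p.1 j) p.2

/-- The data variables. -/
def dat (r m : ℕ) : Set (Fin (r + m) × Fin (r + m)) := {p | r ≤ (p.2 : ℕ)}

/-- The values of `e` at the addresses chosen by `σ`. -/
def pick {N : ℕ} (e : Fin n → Fin N → Fin m) (σ : Fin n → Fin N) (i : Fin n) : Fin m := e i (σ i)

/-- Total separation cost at most `c` over all samples `σ`. -/
def Cost {r m N : ℕ} (adr : Fin (r + m) → Fin N → Fin r → Bool) (e : Fin (r + m) → Fin N → Fin m)
    (h : (Fin (r + m) × Fin (r + m) → Bool) → Bool) (c : ℕ) : Prop :=
  ∃ s : (Fin (r + m) → Fin N) → ℕ,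
    (∀ σ, Sep (s σ) (fun a => h (asg adr σ (low (pick e σ) a)))
      (fun b => h (asg adr σ (high (pick e σ) b)))) ∧ ∑ σ, s σ ≤ c

end MP979
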