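import Pool.Agent.Lib.MP_979eef_lc.K.Defs

/-!
# Module HardCount

Fix the witness `α` (at most `2 ^ n` choices, union bound). Two vectors `v, v'` which are hard with
the same witness `α` agree in more than `t` rows: otherwise take `A = {i | v i = v' i}`; then
`low v (α on A, true off A) ≤ high v' (α on A, false off A)` entrywise (row `i ∈ A`: `α i = false`
gives an empty left row, `α i = true` a full right row; row `i ∉ A`: `j = v i` implies
`j ≠ v' i`), so monotonicity contradicts `H .. = true`, `H .. = false`. So all members of the class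
(`v = w` on `K`) agree with a fixed one in at least `t + 1 - K.card` rows outside `K`: choose a
subset `B` of `Kᶜ` with `B.card = t + 1 - K.card` (at most `2 ^ n` choices); at most
`m ^ (n - K.card - B.card)` vectors agree with a given vector on `K ∪ B`.
-/

set_option autoImplicit false

namespace MP979

open Finset

/-- Number of vectors with prescribed values on `K`. -/
theorem card_agree {n m : ℕ} (K : Finset (Fin n)) (w : Fin n → Fin m) :
    (univ.filter (fun v : Fin n → Fin m => ∀ i ∈ K, v i = w i)).card = m ^ (n - K.card) := by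
  classical
  have h : (univ.filter (fun v : Fin n → Fin m => ∀ i ∈ K, v i = w i)) =
      Fintype.piFinset (fun i => if i ∈ K then ({w i} : Finset (Fin m)) else univ) := by
    ext v
    rw [mem_filter, Fintype.mem_piFinset]
    constructor
    · rintro ⟨_, hv⟩ i
      by_cases hi : i ∈ K
      · rw [if_pos hi, mem_singleton]
        exact hv i hi
      · rw [if_neg hi]
        exact mem_univ _
    · intro hv
      refine ⟨mem_univ _, fun i hi => ?_⟩
      have := hv i
      rw [if_pos hi, mem_singleton] at this
      exact this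
  rw [h, Fintype.card_piFinset]
  have h1 : ∀ i : Fin n, (if i ∈ K then ({w i} : Finset (Fin m)) else univ).card =
      if i ∈ Kᶜ then m else 1 := by
    intro i
    by_cases hi : i ∈ K
    · rw [if_pos hi, if_neg (by rw [mem_compl]; exact fun h => h hi), card_singleton]
    · rw [if_neg hi, if_pos (mem_compl.2 hi), card_univ, Fintype.card_fin]
  rw [prod_congr rfl (fun i _ => h1 i), prod_ite_mem, univ_inter, prod_const, card_compl,
    Fintype.card_fin]

/-- `α` witnesses that `v` is hard. -/
private def HardCount_wit {n m : ℕ} (t : ℕ) (H : (Fin n → Fin m → Bool) → Bool)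
    (α : Fin n → Bool) (v : Fin n → Fin m) : Prop :=
  ∀ A : Finset (Fin n), A.card ≤ t →
    H (low v (fun i => if i ∈ A then α i else true)) = true ∧
      H (high v (fun i => if i ∈ A then α i else false)) = false

private lemma HardCount_agree {n m t : ℕ} {H : (Fin n → Fin m → Bool) → Bool} (hH : MonoTab H)
    {α : Fin n → Bool} {v v' : Fin n → Fin m} (hv : HardCount_wit t H α v)
    (hv' : HardCount_wit t H α v') : t < (univ.filter (fun i => v i = v' i)).card := by
  by_contra hcon
  push Not at hcon
  have h1 := (hv _ hcon).1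
  have h2 := (hv' _ hcon).2
  have h3 := hH _ (high v' (fun i => if i ∈ univ.filter (fun i => v i = v' i) then α i else false))
    (by
      intro i j hij
      unfold low at hij
      unfold high
      rw [Bool.and_eq_true, decide_eq_true_eq] at hij
      rw [Bool.or_eq_true, decide_eq_true_eq]
      beta_reduce at hij ⊢
      by_cases hi : v i = v' i
      · have hmem : i ∈ univ.filter (fun i => v i = v' i) := mem_filter.2 ⟨mem_univ _, hi⟩
        rw [if_pos hmem] at hij
        rw [if_pos hmem]
        exact Or.inl hij.1
      · exact Or.inr (fun h => hi (hij.2 ▸ h))) h1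
  rw [h2] at h3
  exact Bool.false_ne_true h3

open Classical in
private lemma HardCount_class {n m t : ℕ} (H : (Fin n → Fin m → Bool) → Bool) (hH : MonoTab H)
    (K : Finset (Fin n)) (hK : K.card ≤ t) (w : Fin n → Fin m) (α : Fin n → Bool) :
    (univ.filter (fun v : Fin n → Fin m =>
      (∀ i ∈ K, v i = w i) ∧ HardCount_wit t H α v)).card * m ^ (t + 1 - K.card) ≤
      2 ^ n * m ^ (n - K.card) := by
  set C := univ.filter (fun v : Fin n → Fin m =>
      (∀ i ∈ K, v i = w i) ∧ HardCount_wit t H α v) with hC
  rcases C.eq_empty_or_nonempty with hCe | ⟨v0, hv0⟩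
  · rw [hCe, card_empty, zero_mul]
    exact Nat.zero_le _
  · have hv0' := hv0
    rw [hC, mem_filter] at hv0'
    obtain ⟨_, hv0K, hv0W⟩ := hv0'
    have htn : t + 1 ≤ n := by
      have h1 := HardCount_agree hH hv0W hv0W
      have h2 := card_le_univ (univ.filter (fun i : Fin n => v0 i = v0 i))
      rw [Fintype.card_fin] at h2
      omega
    have hsub : C ⊆ (powersetCard (t + 1 - K.card) Kᶜ).biUnion
        (fun B => univ.filter (fun v : Fin n → Fin m => ∀ i ∈ K ∪ B, v i = v0 i)) := by
      intro v hv
      rw [hC, mem_filter] at hv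
      obtain ⟨_, hvK, hvW⟩ := hv
      have h1 := HardCount_agree hH hvW hv0W
      have h2 : t + 1 - K.card ≤ ((univ.filter (fun i => v i = v0 i)) \ K).card := by
        have := le_card_sdiff K (univ.filter (fun i => v i = v0 i))
        omega
      obtain ⟨B, hB1, hB2⟩ := exists_subset_card_eq h2
      rw [mem_biUnion]
      refine ⟨B, ?_, ?_⟩
      · rw [mem_powersetCard]
        refine ⟨fun i hi => ?_, hB2⟩
        rw [mem_compl]
        exact (mem_sdiff.1 (hB1 hi)).2
      · rw [mem_filter]
        refine ⟨mem_univ _, fun i hi => ?_⟩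
        rcases mem_union.1 hi with hi | hi
        · rw [hvK i hi, hv0K i hi]
        · exact (mem_filter.1 (mem_sdiff.1 (hB1 hi)).1).2
    have hcard : C.card ≤ 2 ^ n * m ^ (n - (t + 1)) := by
      refine le_trans (card_le_card hsub) (le_trans card_biUnion_le ?_)
      have h3 : ∀ B ∈ powersetCard (t + 1 - K.card) Kᶜ,
          (univ.filter (fun v : Fin n → Fin m => ∀ i ∈ K ∪ B, v i = v0 i)).card =
            m ^ (n - (t + 1)) := by
        intro B hB
        rw [mem_powersetCard] at hB
        have hd : Disjoint K B := by
          rw [Finset.disjoint_left]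
          intro i hi hi'
          exact (mem_compl.1 (hB.1 hi')) hi
        rw [card_agree (K ∪ B) v0, card_union_of_disjoint hd, hB.2]
        congr 2
        omega
      rw [sum_congr rfl h3, sum_const, smul_eq_mul]
      refine Nat.mul_le_mul_right _ ?_
      have h4 : (powersetCard (t + 1 - K.card) Kᶜ).card ≤ (univ : Finset (Finset (Fin n))).card :=
        card_le_card (subset_univ _)
      rw [card_univ, Fintype.card_finset, Fintype.card_fin] at h4
      exact h4
    calc C.card * m ^ (t + 1 - K.card) ≤ 2 ^ n * m ^ (n - (t + 1)) * m ^ (t + 1 - K.card) :=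
          Nat.mul_le_mul_right _ hcard
      _ = 2 ^ n * m ^ (n - K.card) := by
          rw [mul_assoc, ← pow_add]
          congr 2
          omega

open Classical in
theorem hard_count {n m t : ℕ} (H : (Fin n → Fin m → Bool) → Bool) (hH : MonoTab H)
    (K : Finset (Fin n)) (hK : K.card ≤ t) (w : Fin n → Fin m) :
    (univ.filter (fun v : Fin n → Fin m => (∀ i ∈ K, v i = w i) ∧ Hard t H v)).card *
      m ^ (t + 1 - K.card) ≤ 4 ^ n * m ^ (n - K.card) := by
  have hsub : (univ.filter (fun v : Fin n → Fin m => (∀ i ∈ K, v i = w i) ∧ Hard t H v)) ⊆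
      (univ : Finset (Fin n → Bool)).biUnion (fun α => univ.filter (fun v : Fin n → Fin m =>
        (∀ i ∈ K, v i = w i) ∧ HardCount_wit t H α v)) := by
    intro v hv
    rw [mem_filter] at hv
    obtain ⟨_, hvK, α, hα⟩ := hv
    rw [mem_biUnion]
    exact ⟨α, mem_univ _, mem_filter.2 ⟨mem_univ _, hvK, hα⟩⟩
  calc (univ.filter (fun v : Fin n → Fin m => (∀ i ∈ K, v i = w i) ∧ Hard t H v)).card *
      m ^ (t + 1 - K.card)
      ≤ (∑ α : Fin n → Bool, (univ.filter (fun v : Fin n → Fin m =>
        (∀ i ∈ K, v i = w i) ∧ HardCount_wit t H α v)).card) * m ^ (t + 1 - K.card) :=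
        Nat.mul_le_mul_right _ (le_trans (card_le_card hsub) card_biUnion_le)
    _ = ∑ α : Fin n → Bool, (univ.filter (fun v : Fin n → Fin m =>
        (∀ i ∈ K, v i = w i) ∧ HardCount_wit t H α v)).card * m ^ (t + 1 - K.card) :=
        sum_mul _ _ _
    _ ≤ ∑ _α : Fin n → Bool, 2 ^ n * m ^ (n - K.card) :=
        sum_le_sum (fun α _ => HardCount_class H hH K hK w α)
    _ = 4 ^ n * m ^ (n - K.card) := by
        rw [sum_const, card_univ, Fintype.card_fun, Fintype.card_fin, Fintype.card_bool,
          smul_eq_mul, ← mul_assoc, ← mul_pow]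
        norm_num

end MP979
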