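import Pool.Agent.Lib.MP_979eef_lc.K.Inner

/-!
# Module InnerInj

`e i s` is the only `j` for which, for some block `i0` and some input `X`, the value of
`comp f (gfun adr e)` changes when block `i0` is changed from `(adr i s, empty)` to
`(adr i s, {j})`: if it changes then `gfun adr e` has different values at these two blocks, so
`j = e i s`. Conversely `f` non-constant gives `a` and `i0` with
`f a ≠ f (Function.update a i0 (!(a i0)))` (change a true input into a false one coordinate by
coordinate), and the other blocks can be given any values by `(adr i s, empty)` (value `false`) and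
`(adr i s, everything)` (value `true`); `gfun_asg` with `σ = fun _ => s` is not enough since the
address `adr i s` belongs to row `i`; compute `gfun adr e` at `Fin.addCases (adr i s) S` directly
(`gfun_block`).
-/

set_option autoImplicit false

namespace MP979

open Finset

section

variable {r m N : ℕ} {adr : Fin (r + m) → Fin N → Fin r → Bool}

theorem gfun_block (ha : Adr adr) (e : Fin (r + m) → Fin N → Fin m) (i : Fin (r + m)) (s : Fin N)
    (S : Fin m → Bool) :
    gfun adr e (fun j => Fin.addCases (motive := fun _ => Bool) (fun k : Fin r => adr i s k) S j) =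
      S (e i s) := by
  unfold gfun
  have h1 : (fun k : Fin r => (fun j => Fin.addCases (motive := fun _ => Bool) (fun k : Fin r => adr i s k) S j)
      (Fin.castAdd m k)) = adr i s := by
    funext k
    simp only [Fin.addCases_left]
  rw [h1, ha.wt_eq]
  have h2 : decide (r / 2 < r / 2) = false := by
    rw [decide_eq_false_iff_not]
    exact lt_irrefl _
  rw [h2, Bool.false_or]
  simp only [Fin.addCases_right]
  cases hS : S (e i s)
  · rw [decide_eq_false_iff_not]
    rintro ⟨i', s', h3, h4⟩
    obtain ⟨h5, h6⟩ := ha.inj _ _ _ _ h3
    rw [← h5, ← h6, hS] at h4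
    exact Bool.false_ne_true h4
  · rw [decide_eq_true_eq]
    exact ⟨i, s, rfl, hS⟩

/-- A non-constant function is sensitive somewhere. -/
private theorem InnerInj_sens {n : ℕ} (f : (Fin n → Bool) → Bool) (hf : NonConst f) :
    ∃ (a : Fin n → Bool) (i : Fin n), f (Function.update a i true) ≠ f (Function.update a i false) := by
  by_contra hcon
  push Not at hcon
  have h1 : ∀ (a : Fin n → Bool) (i : Fin n) (b c : Bool),
      f (Function.update a i b) = f (Function.update a i c) := by
    intro a i b c
    cases b <;> cases c
    · rfl
    · exact (hcon a i).symm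
    · exact hcon a i
    · rfl
  obtain ⟨⟨x, hx⟩, ⟨y, hy⟩⟩ := hf
  have h2 : ∀ A : Finset (Fin n), f (A.piecewise x y) = f y := by
    intro A
    induction A using Finset.induction_on with
    | empty => rw [Finset.piecewise_empty]
    | insert i A hi ih =>
      rw [Finset.piecewise_insert]
      rw [h1 (A.piecewise x y) i (x i) (A.piecewise x y i), Function.update_eq_self, ih]
  have h3 := h2 univ
  rw [Finset.piecewise_univ, hx, hy] at h3
  exact Bool.noConfusion h3

/-- The value of a composition at a test input. -/
private theorem InnerInj_test (ha : Adr adr) (e : Fin (r + m) → Fin N → Fin m)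
    (f : (Fin (r + m) → Bool) → Bool) (i : Fin (r + m)) (s : Fin N) (a : Fin (r + m) → Bool)
    (i0 : Fin (r + m)) (S : Fin m → Bool) :
    comp f (gfun adr e) (fun p => Fin.addCases (motive := fun _ => Bool) (fun k : Fin r => adr i s k)
      (if p.1 = i0 then S else fun _ => a p.1) p.2) = f (Function.update a i0 (S (e i s))) := by
  unfold comp
  congr 1
  funext p
  have h1 := gfun_block ha e i s (if p = i0 then S else fun _ => a p)
  refine Eq.trans h1 ?_
  by_cases hp : p = i0
  · rw [if_pos hp, hp, Function.update_self]
  · rw [if_neg hp, Function.update_of_ne hp]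

/-- `f ◇ g` determines `e`. -/
theorem gfun_inj (ha : Adr adr) (e e' : Fin (r + m) → Fin N → Fin m)
    (f f' : (Fin (r + m) → Bool) → Bool) (hf : NonConst f) (hf' : NonConst f')
    (h : comp f (gfun adr e) = comp f' (gfun adr e')) : e = e' := by
  obtain ⟨a, i0, hsens⟩ := InnerInj_sens f hf
  funext i s
  by_contra hne
  refine hsens ?_
  have h1 := InnerInj_test ha e f i s a i0 (fun j => decide (j = e i s))
  have h2 := InnerInj_test ha e f i s a i0 (fun _ => false)
  have h3 := InnerInj_test ha e' f' i s a i0 (fun j => decide (j = e i s))
  have h4 := InnerInj_test ha e' f' i s a i0 (fun _ => false)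
  rw [← h] at h3 h4
  have h5 : decide (e i s = e i s) = true := decide_eq_true rfl
  have h6 : decide (e' i s = e i s) = false := decide_eq_false (fun h => hne h.symm)
  rw [h5] at h1
  rw [h6] at h3
  rw [← h1, ← h2, h3, h4]

end

end MP979
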