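import Pool.Agent.Lib.MP_979eef_lc.K.Defs

/-!
# Module NumA

`params`: `m = 2 ^ (8 * b)`, `u = n / b`, `t1 = u + 1`, `ell = 2 ^ (n - 3 * u) - 1`,
`N = r.choose (r / 2) / n ≥ 2 ^ (n - 2 * u)` (for `n` large, since `r.choose (r / 2) * (r + 1) ≥
2 ^ r`), `(2 * n ^ 2 + 5) ^ 2 ≤ 2 ^ (2 * n)`, so
`2 ^ n * (2 ^ n * ((ell + 1) / N) ^ t1 + 4 ^ n / m ^ t1) ≤ 2 ^ n * (2 ^ n * 2 ^ (- u ^ 2) +
2 ^ (2 * n - 8 * n)) ≤ 2 ^ (- 4 * n)`.
-/

set_option autoImplicit false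

namespace MP979

open Finset

private theorem NumA_sq (u : ℕ) (hu : 4 ≤ u) : u ^ 2 ≤ 2 ^ u := by
  induction u, hu using Nat.le_induction with
  | base => norm_num
  | succ u hu ih =>
    rw [pow_succ 2 u]
    nlinarith

private theorem NumA_poly (n : ℕ) (hn : 7 ≤ n) : 2 * n ^ 2 + 5 ≤ 2 ^ n := by
  induction n, hn using Nat.le_induction with
  | base => norm_num
  | succ n hn ih =>
    rw [pow_succ 2 n]
    nlinarith

private theorem NumA_choose (r : ℕ) : 2 ^ r ≤ (r + 1) * r.choose (r / 2) := by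
  rw [← Nat.sum_range_choose]
  calc ∑ i ∈ range (r + 1), r.choose i ≤ ∑ i ∈ range (r + 1), r.choose (r / 2) :=
        sum_le_sum fun i _ => Nat.choose_le_middle i r
    _ = (r + 1) * r.choose (r / 2) := by rw [sum_const, card_range, smul_eq_mul]

/-- the two inequalities from the facts about `u`, `N`, `E` -/
private theorem NumA_main (b n u N E : ℕ) (hb : 8 ≤ b) (hn : 7 ≤ n) (hE1 : 1 ≤ E)
    (hEN : E * 2 ^ u ≤ N) (hbu : n ≤ b * (u + 1)) (hu : 6 * n + 1 ≤ u * (u + 1)) :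
    (2 * (2 * (n : ℝ) ^ 2 + 5) ^ (2 * E)) *
        ((2 : ℝ) ^ n * (2 ^ n * ((E : ℝ) / N) ^ (u + 1) +
        4 ^ n / ((2 : ℝ) ^ (8 * b)) ^ (u + 1))) ^ E < 1 / 2 ∧
      2 * (2 * (2 * n ^ 2 + 5) ^ (2 * E)) < (2 ^ (8 * b)) ^ (n * N) := by
  have hp := NumA_poly n hn
  have h2u : 1 ≤ 2 ^ u := Nat.one_le_two_pow
  have hEN' : E ≤ N := by nlinarith
  constructor
  · have hN0 : (0 : ℝ) < N := by
      have : 0 < N := by omega
      exact_mod_cast this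
    have h1 : (E : ℝ) / N ≤ (1 / 2) ^ u := by
      rw [div_le_iff₀ hN0, one_div, inv_pow, inv_mul_eq_div, le_div_iff₀ (by positivity)]
      exact_mod_cast hEN
    have h2 : ((E : ℝ) / N) ^ (u + 1) ≤ (1 / 2) ^ (6 * n + 1) := by
      calc ((E : ℝ) / N) ^ (u + 1) ≤ ((1 / 2) ^ u) ^ (u + 1) :=
            pow_le_pow_left₀ (by positivity) h1 _
        _ = (1 / 2) ^ (u * (u + 1)) := by rw [pow_mul]
        _ ≤ (1 / 2) ^ (6 * n + 1) := pow_le_pow_of_le_one (by norm_num) (by norm_num) hu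
    have h3 : (4 : ℝ) ^ n / ((2 : ℝ) ^ (8 * b)) ^ (u + 1) ≤ 4 ^ n * (1 / 2) ^ (8 * n) := by
      rw [div_eq_mul_inv]
      have h4 : (((2 : ℝ) ^ (8 * b)) ^ (u + 1))⁻¹ ≤ (1 / 2) ^ (8 * n) := by
        rw [← pow_mul, one_div, inv_pow]
        apply inv_anti₀ (by positivity)
        apply pow_le_pow_right₀ (by norm_num)
        calc 8 * n ≤ 8 * (b * (u + 1)) := Nat.mul_le_mul_left 8 hbu
          _ = 8 * b * (u + 1) := by ring
      gcongr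
    have h5 : (2 : ℝ) ^ n * (2 ^ n * ((E : ℝ) / N) ^ (u + 1) +
        4 ^ n / ((2 : ℝ) ^ (8 * b)) ^ (u + 1)) ≤ (1 / 2) ^ (4 * n) := by
      calc (2 : ℝ) ^ n * (2 ^ n * ((E : ℝ) / N) ^ (u + 1) +
          4 ^ n / ((2 : ℝ) ^ (8 * b)) ^ (u + 1))
          ≤ (2 : ℝ) ^ n * (2 ^ n * (1 / 2) ^ (6 * n + 1) + 4 ^ n * (1 / 2) ^ (8 * n)) := by
            gcongr
        _ = (1 / 2) ^ (4 * n) * (1 / 2) + (1 / 2) ^ (4 * n) * (1 / 2) ^ n := by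
            have e1 : (4 : ℝ) ^ n = 2 ^ n * 2 ^ n := by rw [← mul_pow]; norm_num
            have e2 : ∀ k : ℕ, (2 : ℝ) ^ n * (1 / 2) ^ (n + k) = (1 / 2) ^ k := by
              intro k
              rw [pow_add, ← mul_assoc, ← mul_pow]
              norm_num
            have e3 : (2 : ℝ) ^ n * (2 ^ n * (1 / 2) ^ (6 * n + 1)) = (1 / 2) ^ (4 * n + 1) := by
              rw [show 6 * n + 1 = n + (n + (4 * n + 1)) by ring, e2, e2]
            have e4 : (2 : ℝ) ^ n * (4 ^ n * (1 / 2) ^ (8 * n)) = (1 / 2) ^ (5 * n) := by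
              rw [e1, show 8 * n = n + (n + (n + 5 * n)) by ring, mul_assoc, e2, e2, e2]
            rw [mul_add, e3, e4, show 5 * n = 4 * n + n by ring, pow_succ, pow_add]
        _ ≤ (1 / 2) ^ (4 * n) * (1 / 2) + (1 / 2) ^ (4 * n) * (1 / 2) := by
            have : ((1 / 2 : ℝ)) ^ n ≤ (1 / 2) ^ 1 :=
              pow_le_pow_of_le_one (by norm_num) (by norm_num) (by omega)
            rw [pow_one] at this
            gcongr
        _ = (1 / 2) ^ (4 * n) := by ring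
    have h6 : (2 * (n : ℝ) ^ 2 + 5) ^ (2 * E) ≤ (2 ^ n) ^ (2 * E) := by
      apply pow_le_pow_left₀ (by positivity)
      exact_mod_cast hp
    have h7 : ((2 : ℝ) ^ n * (2 ^ n * ((E : ℝ) / N) ^ (u + 1) +
        4 ^ n / ((2 : ℝ) ^ (8 * b)) ^ (u + 1))) ^ E ≤ ((1 / 2) ^ (4 * n)) ^ E :=
      pow_le_pow_left₀ (by positivity) h5 E
    have h8 : ((2 : ℝ) ^ n) ^ (2 * E) * ((1 / 2) ^ (4 * n)) ^ E = (1 / 2) ^ (2 * n * E) := by
      rw [← pow_mul, ← pow_mul, show n * (2 * E) = 2 * n * E by ring,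
        show 4 * n * E = 2 * n * E + 2 * n * E by ring, pow_add, ← mul_assoc, ← mul_pow]
      norm_num
    have h9 : ((1 / 2 : ℝ)) ^ (2 * n * E) ≤ (1 / 2) ^ 3 := by
      apply pow_le_pow_of_le_one (by norm_num) (by norm_num)
      nlinarith
    calc (2 * (2 * (n : ℝ) ^ 2 + 5) ^ (2 * E)) *
        ((2 : ℝ) ^ n * (2 ^ n * ((E : ℝ) / N) ^ (u + 1) +
        4 ^ n / ((2 : ℝ) ^ (8 * b)) ^ (u + 1))) ^ E
        ≤ (2 * (2 ^ n) ^ (2 * E)) * ((1 / 2) ^ (4 * n)) ^ E := by gcongr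
      _ = 2 * (1 / 2) ^ (2 * n * E) := by rw [mul_assoc, h8]
      _ ≤ 2 * (1 / 2) ^ 3 := by gcongr
      _ < 1 / 2 := by norm_num
  · calc 2 * (2 * (2 * n ^ 2 + 5) ^ (2 * E)) ≤ 2 * (2 * (2 ^ n) ^ (2 * E)) := by gcongr
      _ = 2 ^ (2 + n * (2 * E)) := by rw [← pow_mul, pow_add]; ring
      _ < 2 ^ (8 * b * (n * N)) := by
        apply Nat.pow_lt_pow_right (by norm_num)
        have h1 : n * E ≤ n * N := Nat.mul_le_mul_left n hEN'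
        have h2 : 7 ≤ n * E := by nlinarith
        have h3 : 64 * (n * N) ≤ 8 * b * (n * N) := Nat.mul_le_mul_right _ (by omega)
        have h4 : n * (2 * E) = 2 * (n * E) := by ring
        rw [h4]
        omega
      _ = (2 ^ (8 * b)) ^ (n * N) := by rw [pow_mul]

theorem params (b : ℕ) (hb : 8 ≤ b) : ∃ n0 : ℕ, ∀ n ≥ n0, ∀ r : ℕ, r + 2 ^ (8 * b) = n →
    ∃ N : ℕ, 0 < N ∧ 1 ≤ 2 ^ (n - 3 * (n / b)) - 1 ∧ n * N ≤ r.choose (r / 2) ∧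
      (2 * (2 * (n : ℝ) ^ 2 + 5) ^ (2 * 2 ^ (n - 3 * (n / b)))) *
        ((2 : ℝ) ^ n * (2 ^ n * (((2 ^ (n - 3 * (n / b)) : ℕ) : ℝ) / N) ^ (n / b + 1) +
        4 ^ n / ((2 : ℝ) ^ (8 * b)) ^ (n / b + 1))) ^ (2 ^ (n - 3 * (n / b))) < 1 / 2 ∧
      2 * (2 * (2 * n ^ 2 + 5) ^ (2 * 2 ^ (n - 3 * (n / b)))) < (2 ^ (8 * b)) ^ (n * N) := by
  obtain ⟨m, hm⟩ : ∃ m : ℕ, m = 2 ^ (8 * b) := ⟨_, rfl⟩
  obtain ⟨u0, hu0⟩ : ∃ u0 : ℕ, u0 = 4 * b ^ 2 * 2 ^ m + 13 * b + 7 := ⟨_, rfl⟩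
  refine ⟨b * u0, fun n hn r hr => ?_⟩
  rw [← hm] at hr
  obtain ⟨u, hu⟩ : ∃ u : ℕ, u = n / b := ⟨_, rfl⟩
  rw [← hu]
  have hb0 : 0 < b := by omega
  have hu1 : u0 ≤ u := by
    rw [hu, Nat.le_div_iff_mul_le hb0, mul_comm]
    exact hn
  have hbn : b * u ≤ n := by
    rw [hu]
    exact Nat.mul_div_le n b
  have hnb : n < b * (u + 1) := by
    rw [hu, mul_comm, ← Nat.div_lt_iff_lt_mul hb0]
    omega
  have hu7 : 7 ≤ u := by omega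
  have hn7 : 7 ≤ n := by nlinarith
  have h3u : 3 * u + u ≤ n := by nlinarith
  have hE1 : 1 ≤ 2 ^ (n - 3 * u) := Nat.one_le_two_pow
  have hC : 4 * b ^ 2 * 2 ^ m ≤ 2 ^ u := by
    have : u < 2 ^ u := Nat.lt_two_pow_self
    omega
  -- n (n + 1) 2 ^ m ≤ 4 ^ u
  have hkey : n * (n + 1) * 2 ^ m ≤ 2 ^ u * 2 ^ u := by
    have h1 : n + 1 ≤ 2 * b * u := by nlinarith
    have h2 : n * (n + 1) ≤ (2 * b * u) * (2 * b * u) := Nat.mul_le_mul (by omega) h1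
    calc n * (n + 1) * 2 ^ m ≤ (2 * b * u) * (2 * b * u) * 2 ^ m := Nat.mul_le_mul_right _ h2
      _ = (4 * b ^ 2 * 2 ^ m) * u ^ 2 := by ring
      _ ≤ 2 ^ u * 2 ^ u := Nat.mul_le_mul hC (NumA_sq u (by omega))
  have hN : n * (2 ^ (n - 3 * u) * 2 ^ u) ≤ r.choose (r / 2) := by
    have h1 := NumA_choose r
    have h2 : 2 ^ n = 2 ^ r * 2 ^ m := by rw [← pow_add, hr]
    have h3 : 2 ^ n = (2 ^ (n - 3 * u) * 2 ^ u) * (2 ^ u * 2 ^ u) := by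
      rw [← pow_add, ← pow_add, ← pow_add]
      congr 1
      omega
    have h4 : (r + 1) * 2 ^ m * (n * (2 ^ (n - 3 * u) * 2 ^ u)) ≤
        (r + 1) * 2 ^ m * r.choose (r / 2) := by
      calc (r + 1) * 2 ^ m * (n * (2 ^ (n - 3 * u) * 2 ^ u))
          = (n * (r + 1) * 2 ^ m) * (2 ^ (n - 3 * u) * 2 ^ u) := by ring
        _ ≤ (n * (n + 1) * 2 ^ m) * (2 ^ (n - 3 * u) * 2 ^ u) := by
            gcongr
            omega
        _ ≤ (2 ^ u * 2 ^ u) * (2 ^ (n - 3 * u) * 2 ^ u) := Nat.mul_le_mul_right _ hkey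
        _ = 2 ^ n := by rw [h3]; ring
        _ = 2 ^ r * 2 ^ m := h2
        _ ≤ ((r + 1) * r.choose (r / 2)) * 2 ^ m := Nat.mul_le_mul_right _ h1
        _ = (r + 1) * 2 ^ m * r.choose (r / 2) := by ring
    exact Nat.le_of_mul_le_mul_left h4 (by positivity)
  refine ⟨2 ^ (n - 3 * u) * 2 ^ u, by positivity, ?_, hN, ?_⟩
  · have : 2 ^ 1 ≤ 2 ^ (n - 3 * u) := Nat.pow_le_pow_right (by norm_num) (by omega)
    omega
  · have h6 : 6 * n + 1 ≤ u * (u + 1) := by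
      have h7 : 6 * b ≤ u := by omega
      have h8 : 6 * b * (u + 1) ≤ u * (u + 1) := Nat.mul_le_mul_right _ h7
      have h9 : 6 * b * (u + 1) = 6 * (b * (u + 1)) := by ring
      omega
    exact NumA_main b n u (2 ^ (n - 3 * u) * 2 ^ u) (2 ^ (n - 3 * u)) hb hn7 hE1 le_rfl hnb.le h6

end MP979
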