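import Pool.Agent.Lib.MP_979eef_lc.K.Compose
import Pool.Agent.Lib.MP_979eef_lc.K.CountF
import Pool.Agent.Lib.MP_979eef_lc.K.NumA
import Pool.Agent.Lib.MP_979eef_lc.K.NumB
import Pool.Agent.Lib.MP_979eef_lc.K.NumC

/-!
# Module Main

The theorem: parameters `m = 2 ^ (8 * b)`, `r = n - m`, `t1 = n / b + 1`,
`ell = 2 ^ (n - 3 * (n / b)) - 1`. `{p | n ≤ p.2 + m}` is `dat r m`.
-/

set_option autoImplicit false

namespace MP979

open Finset

/-- Composition theorem for formulas in which the last `m` variables of every block occur only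
un-negated. -/
theorem mono_krw (ε : ℝ) (hε : 0 < ε) : ∃ m n0 : ℕ, ∀ n ≥ n0,
    ∃ g : (Fin n → Bool) → Bool, Monotone g ∧ NonConst g ∧
      ∀ f : (Fin n → Bool) → Bool, NonConst f →
        ∀ F : Fml (Fin n × Fin n), F.PosOn {p | n ≤ (p.2 : ℕ) + m} →
          (∀ x, F.eval x = comp f g x) →
          (monoSize f : ℝ) * 2 ^ ((1 - ε) * n) ≤ F.size := by
  obtain ⟨b, hb, n1, hn1⟩ := loss ε hε
  obtain ⟨n2, hn2⟩ := params b hb
  refine ⟨2 ^ (8 * b), max (max n1 n2) (2 ^ (8 * b)), ?_⟩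
  intro n hn
  have hnn1 : n1 ≤ n := le_trans (le_trans (le_max_left _ _) (le_max_left _ _)) hn
  have hnn2 : n2 ≤ n := le_trans (le_trans (le_max_right _ _) (le_max_left _ _)) hn
  have hnm : 2 ^ (8 * b) ≤ n := le_trans (le_max_right _ _) hn
  obtain ⟨r, hr⟩ : ∃ r, r + 2 ^ (8 * b) = n := ⟨n - 2 ^ (8 * b), by omega⟩
  obtain ⟨N, hN, hell, hadr, hc, hcard⟩ := hn2 n hnn2 r hr
  have hloss := hn1 n hnn1
  have hm : 0 < 2 ^ (8 * b) := by positivity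
  generalize hmm : 2 ^ (8 * b) = m at hr hm hcard
  subst hr
  set t1 : ℕ := (r + m) / b + 1 with ht1
  set ell : ℕ := 2 ^ ((r + m) - 3 * ((r + m) / b)) - 1 with hellD
  have hell1 : ell + 1 = 2 ^ ((r + m) - 3 * ((r + m) / b)) := by
    have : 1 ≤ 2 ^ ((r + m) - 3 * ((r + m) / b)) := Nat.one_le_two_pow
    omega
  have hmR : ((2 : ℝ) ^ (8 * b)) = (m : ℝ) := by rw [← hmm]; push_cast; rfl
  rw [← hell1, hmR] at hc
  rw [← hell1] at hcard
  obtain ⟨g, hg1, hg2, hg3⟩ := compose hm hN t1 ell (Nat.le_add_left 1 _) hell hadr hc hcard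
  refine ⟨g, hg1, hg2, ?_⟩
  intro f hf F hF hFc
  have hset : {p : Fin (r + m) × Fin (r + m) | r + m ≤ (p.2 : ℕ) + m} = dat r m := by
    ext p
    simp only [dat, Set.mem_setOf_eq]
    omega
  rw [hset] at hF
  have h1 := hg3 f hf F hF hFc
  set A : ℕ := (2 * t1 - 1) * nsub (r + m) (2 * t1 - 1) + (r + m) with hA
  have h2 : (monoSize f : ℝ) * (ell : ℝ) ≤ 6 * (A : ℝ) * F.size := by exact_mod_cast h1
  have h3 : (2 : ℝ) ^ ((1 - ε) * ((r + m : ℕ) : ℝ)) * (6 * (A : ℝ)) ≤ (ell : ℝ) := by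
    refine le_trans (le_of_eq ?_) hloss
    rw [hA]
    push_cast
    rfl
  have hn0 : 0 < r + m := by omega
  have hApos : (0 : ℝ) < 6 * (A : ℝ) := by
    have : 0 < A := by omega
    have : (0 : ℝ) < (A : ℝ) := by exact_mod_cast this
    linarith
  rw [← mul_le_mul_iff_left₀ hApos]
  calc (monoSize f : ℝ) * 2 ^ ((1 - ε) * ((r + m : ℕ) : ℝ)) * (6 * (A : ℝ))
      = (monoSize f : ℝ) * (2 ^ ((1 - ε) * ((r + m : ℕ) : ℝ)) * (6 * (A : ℝ))) := by ring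
    _ ≤ (monoSize f : ℝ) * (ell : ℝ) := mul_le_mul_of_nonneg_left h3 (by positivity)
    _ ≤ 6 * (A : ℝ) * F.size := h2
    _ = (F.size : ℝ) * (6 * (A : ℝ)) := by ring

theorem hard_outer (ε : ℝ) (hε : 0 < ε) : ∃ n0 : ℕ, ∀ n ≥ n0,
    ∃ f : (Fin n → Bool) → Bool, Monotone f ∧ NonConst f ∧
      (2 : ℝ) ^ ((1 - ε) * n) ≤ monoSize f := by
  obtain ⟨n0, hn0⟩ := many ε hε
  refine ⟨max n0 2, fun n hn => ?_⟩
  obtain ⟨f, hf1, hf2, hf3⟩ := exists_hard_mono n (le_trans (le_max_right _ _) hn)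
  exact ⟨f, hf1, hf2, hn0 n (le_trans (le_max_left _ _) hn) _ hf3⟩

end MP979
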