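import Pool.Agent.Lib.MP_979eef_lc.K.Defs

/-!
# Module MomA

`card_fix`: the complement of `U` has `n * N - U.card` elements (for instance the functions
`Fin n × Fin N → Fin m` fixed on `U`; equivalence with functions on the complement, or induction over
`U`). `heavy_count`: choose a set `B` of exactly `t1` rows with `(i, σ i) ∈ U` for `i ∈ B` (at most
`2 ^ n` choices of `B`); for fixed `B` the number of `σ` is the product over rows of `U_i.card ≤ Q`
(`i ∈ B`) and `N` (`i ∉ B`): `Fintype.card_piFinset`; so at most `Q ^ t1 * N ^ (n - t1)`.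
If `t1 > n` the set is empty.
-/

set_option autoImplicit false

namespace MP979

open Finset

/-- Number of `e` with prescribed values on `U`. -/
theorem card_fix {n m N : ℕ} (U : Finset (Fin n × Fin N)) (e0 : Fin n → Fin N → Fin m) :
    (univ.filter (fun e : Fin n → Fin N → Fin m => ∀ x ∈ U, e x.1 x.2 = e0 x.1 x.2)).card =
      m ^ (n * N - U.card) := by
  have h1 : (univ.filter (fun e : Fin n → Fin N → Fin m => ∀ x ∈ U, e x.1 x.2 = e0 x.1 x.2)).card =
      (Fintype.piFinset (fun x : Fin n × Fin N => if x ∈ U then {e0 x.1 x.2} else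
        (univ : Finset (Fin m)))).card := by
    refine Finset.card_bij (fun e _ => fun x : Fin n × Fin N => e x.1 x.2) ?_ ?_ ?_
    · intro e he
      rw [Fintype.mem_piFinset]
      intro x
      rw [Finset.mem_filter] at he
      split_ifs with hx
      · exact Finset.mem_singleton.mpr (he.2 x hx)
      · exact Finset.mem_univ _
    · intro e _ e' _ h
      funext i j
      exact congrFun h (i, j)
    · intro f hf
      rw [Fintype.mem_piFinset] at hf
      refine ⟨fun i j => f (i, j), ?_, ?_⟩
      · rw [Finset.mem_filter]
        refine ⟨Finset.mem_univ _, fun x hx => ?_⟩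
        have h2 := hf x
        rw [if_pos hx, Finset.mem_singleton] at h2
        exact h2
      · rfl
  rw [h1, Fintype.card_piFinset]
  have h2 : ∀ x : Fin n × Fin N, (if x ∈ U then {e0 x.1 x.2} else (univ : Finset (Fin m))).card =
      if x ∈ U then 1 else m := by
    intro x
    split_ifs
    · exact Finset.card_singleton _
    · rw [Finset.card_univ, Fintype.card_fin]
  rw [Finset.prod_congr rfl (fun x _ => h2 x), Finset.prod_ite, Finset.prod_const_one, one_mul,
    Finset.prod_const]
  congr 1
  have h3 : univ.filter (fun x : Fin n × Fin N => x ∉ U) = Uᶜ := by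
    ext x
    rw [Finset.mem_filter, Finset.mem_compl]
    exact ⟨fun h => h.2, fun h => ⟨Finset.mem_univ _, h⟩⟩
  rw [h3, Finset.card_compl, Fintype.card_prod, Fintype.card_fin, Fintype.card_fin]

/-- Samples with many rows in `U` are rare. -/
theorem heavy_count {n N : ℕ} (t1 Q : ℕ) (U : Finset (Fin n × Fin N))
    (hU : ∀ i, (U.filter (fun x => x.1 = i)).card ≤ Q) :
    (univ.filter (fun σ : Fin n → Fin N =>
      t1 ≤ (univ.filter (fun i => (i, σ i) ∈ U)).card)).card * N ^ t1 ≤
      2 ^ n * Q ^ t1 * N ^ n := by
  by_cases ht : t1 ≤ n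
  swap
  · have h1 : univ.filter (fun σ : Fin n → Fin N =>
        t1 ≤ (univ.filter (fun i => (i, σ i) ∈ U)).card) = ∅ := by
      rw [Finset.filter_eq_empty_iff]
      intro σ _ h
      have h2 : (univ.filter (fun i => (i, σ i) ∈ U)).card ≤ n := by
        refine le_trans (Finset.card_le_univ _) (le_of_eq (Fintype.card_fin n))
      omega
    rw [h1, Finset.card_empty, zero_mul]
    exact Nat.zero_le _
  · have h1 : univ.filter (fun σ : Fin n → Fin N =>
        t1 ≤ (univ.filter (fun i => (i, σ i) ∈ U)).card) ⊆
        (Finset.powersetCard t1 (univ : Finset (Fin n))).biUnion (fun B =>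
          Fintype.piFinset (fun i => if i ∈ B then univ.filter (fun s => (i, s) ∈ U) else
            (univ : Finset (Fin N)))) := by
      intro σ hσ
      rw [Finset.mem_filter] at hσ
      obtain ⟨B, hB1, hB2⟩ := Finset.exists_subset_card_eq hσ.2
      rw [Finset.mem_biUnion]
      refine ⟨B, Finset.mem_powersetCard.mpr ⟨Finset.subset_univ _, hB2⟩, ?_⟩
      rw [Fintype.mem_piFinset]
      intro i
      split_ifs with hi
      · have h2 := hB1 hi
        rw [Finset.mem_filter] at h2
        exact Finset.mem_filter.mpr ⟨Finset.mem_univ _, h2.2⟩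
      · exact Finset.mem_univ _
    have h2 : ∀ B ∈ Finset.powersetCard t1 (univ : Finset (Fin n)),
        (Fintype.piFinset (fun i => if i ∈ B then univ.filter (fun s => (i, s) ∈ U) else
            (univ : Finset (Fin N)))).card ≤ Q ^ t1 * N ^ (n - t1) := by
      intro B hB
      rw [Finset.mem_powersetCard] at hB
      rw [Fintype.card_piFinset]
      have h3 : ∀ i ∈ (univ : Finset (Fin n)), (if i ∈ B then univ.filter (fun s => (i, s) ∈ U) else
            (univ : Finset (Fin N))).card ≤ if i ∈ B then Q else N := by
        intro i _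
        split_ifs
        · refine le_trans (le_of_eq ?_) (hU i)
          refine Finset.card_bij (fun s _ => (i, s)) ?_ ?_ ?_
          · intro s hs
            rw [Finset.mem_filter] at hs ⊢
            exact ⟨hs.2, rfl⟩
          · intro s _ s' _ h
            exact (Prod.mk.injEq _ _ _ _ ▸ h : _ ∧ s = s').2
          · rintro ⟨j, s⟩ hx
            rw [Finset.mem_filter] at hx
            have hj : j = i := hx.2
            subst hj
            exact ⟨s, Finset.mem_filter.mpr ⟨Finset.mem_univ _, hx.1⟩, rfl⟩
        · rw [Finset.card_univ, Fintype.card_fin]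
      refine le_trans (Finset.prod_le_prod' h3) (le_of_eq ?_)
      rw [Finset.prod_ite, Finset.prod_const, Finset.prod_const]
      have h4 : (univ.filter (fun i => i ∈ B)).card = t1 := by
        have h41 : univ.filter (fun i => i ∈ B) = B := by
          ext i
          rw [Finset.mem_filter]
          exact ⟨fun h => h.2, fun h => ⟨Finset.mem_univ _, h⟩⟩
        rw [h41, hB.2]
      have h5 : (univ.filter (fun i => i ∉ B)).card = n - t1 := by
        have h51 : univ.filter (fun i => i ∉ B) = Bᶜ := by
          ext i
          rw [Finset.mem_filter, Finset.mem_compl]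
          exact ⟨fun h => h.2, fun h => ⟨Finset.mem_univ _, h⟩⟩
        rw [h51, Finset.card_compl, Fintype.card_fin, hB.2]
      rw [h4, h5]
    have h3 : (univ.filter (fun σ : Fin n → Fin N =>
        t1 ≤ (univ.filter (fun i => (i, σ i) ∈ U)).card)).card ≤ 2 ^ n * (Q ^ t1 * N ^ (n - t1)) := by
      refine le_trans (Finset.card_le_card h1) (le_trans Finset.card_biUnion_le ?_)
      refine le_trans (Finset.sum_le_card_nsmul _ _ _ h2) ?_
      rw [smul_eq_mul, Finset.card_powersetCard, Finset.card_univ, Fintype.card_fin]
      exact Nat.mul_le_mul_right _ (Nat.choose_le_two_pow n t1)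
    refine le_trans (Nat.mul_le_mul_right (N ^ t1) h3) (le_of_eq ?_)
    have h4 : N ^ n = N ^ (n - t1) * N ^ t1 := by
      rw [← pow_add, Nat.sub_add_cancel ht]
    rw [h4]
    ring

end MP979
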