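import Pool.Agent.Lib.MP_979eef_lc.K.Defs
import Pool.Agent.Lib.MP_979eef_lc.K.HardCount
import Pool.Agent.Lib.MP_979eef_lc.K.MomA

/-!
# Module Moment

`Bad σ v` is any property of `v : Fin n → Fin m` for every sample `σ : Fin n → Fin N`, such that for
fewer than `t1` prescribed values the fraction of bad `v` is at most `p`.

General claim by induction on `q`: for every `U : Finset (Fin n × Fin N)` with at most `Q - q`
elements in every row (`∀ i, (U.filter (·.1 = i)).card + q ≤ Q`) and every `e0`,
`∑ e with e = e0 on U, Z e ^ q ≤ m ^ (n * N - U.card) * (N ^ n * (2 ^ n * (Q / N) ^ t1 + p)) ^ q`,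
`Z e = #{σ | Bad σ (pick e σ)}`. Step: `Z e ^ (q + 1) = ∑ σ with Bad σ (pick e σ), Z e ^ q`, exchange
the sums. For fixed `σ` let `K = {i | (i, σ i) ∈ U}`, `U' = U ∪ {(i, σ i)}`, so
`U'.card = U.card + (n - K.card)`. Split the sum over `e` by the vector `v = pick e σ` (equal to
`i ↦ e0 i (σ i)` on `K`, and bad): for each `v` the claim for `U'` and `e1 i s = if s = σ i then v i
else e0 i s` bounds the inner sum by `m ^ (n * N - U'.card) * (..) ^ q`; number of `v`: at most
`m ^ (n - K.card)` in general (`card_agree`), at most `p * m ^ (n - K.card)` if `K.card < t1`. Number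
of `σ` with `t1 ≤ K.card` (`heavy_count`): choose a set `B` of `t1` rows, `2 ^ n` choices, and
`σ i ∈ U_i` for `i ∈ B`: at most `2 ^ n * Q ^ t1 * N ^ (n - t1)`.
-/

set_option autoImplicit false

namespace MP979

open Finset

private lemma moment_card_union {n N : ℕ} (U : Finset (Fin n × Fin N)) (σ : Fin n → Fin N) :
    (U ∪ univ.image (fun i => (i, σ i))).card =
      U.card + (n - (univ.filter (fun i => (i, σ i) ∈ U)).card) := by
  have hinj : Function.Injective (fun i : Fin n => (i, σ i)) := by
    intro i j hij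
    exact congrArg Prod.fst hij
  have h1 : (U ∪ univ.image (fun i => (i, σ i))) =
      U ∪ (univ.filter (fun i => (i, σ i) ∉ U)).image (fun i => (i, σ i)) := by
    ext x
    simp only [mem_union, mem_image, mem_univ, true_and, mem_filter]
    constructor
    · rintro (h | ⟨i, rfl⟩)
      · exact Or.inl h
      · by_cases h : (i, σ i) ∈ U
        · exact Or.inl h
        · exact Or.inr ⟨i, h, rfl⟩
    · rintro (h | ⟨i, _, rfl⟩)
      · exact Or.inl h
      · exact Or.inr ⟨i, rfl⟩
  have h2 : Disjoint U ((univ.filter (fun i => (i, σ i) ∉ U)).image (fun i => (i, σ i))) := by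
    rw [Finset.disjoint_left]
    intro x hx hx'
    rw [mem_image] at hx'
    obtain ⟨i, hi, rfl⟩ := hx'
    exact (mem_filter.1 hi).2 hx
  rw [h1, card_union_of_disjoint h2, card_image_of_injective _ hinj]
  have h3 := card_filter_add_card_filter_not (s := (univ : Finset (Fin n))) (fun i => (i, σ i) ∈ U)
  rw [card_univ, Fintype.card_fin] at h3
  omega

open Classical in
private lemma moment_aux {n m N : ℕ} (hm : 0 < m) (hN : 0 < N)
    (Bad : (Fin n → Fin N) → (Fin n → Fin m) → Prop) (t1 Q : ℕ) (p : ℝ) (hp : 0 ≤ p)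
    (hBad : ∀ (σ : Fin n → Fin N) (K : Finset (Fin n)) (w : Fin n → Fin m), K.card < t1 →
      ((univ.filter (fun v : Fin n → Fin m => (∀ i ∈ K, v i = w i) ∧ Bad σ v)).card : ℝ) ≤
        p * (m : ℝ) ^ (n - K.card)) (q : ℕ) :
    ∀ (U : Finset (Fin n × Fin N)) (e0 : Fin n → Fin N → Fin m),
      (∀ i, (U.filter (fun x => x.1 = i)).card + q ≤ Q) →
      ∑ e ∈ univ.filter (fun e : Fin n → Fin N → Fin m => ∀ x ∈ U, e x.1 x.2 = e0 x.1 x.2),
        ((univ.filter (fun σ : Fin n → Fin N => Bad σ (pick e σ))).card : ℝ) ^ q ≤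
      (m : ℝ) ^ (n * N - U.card) * ((N : ℝ) ^ n * (2 ^ n * ((Q : ℝ) / N) ^ t1 + p)) ^ q := by
  have hm' : (0 : ℝ) < m := by exact_mod_cast hm
  have hN' : (0 : ℝ) < N := by exact_mod_cast hN
  have hc0 : 0 ≤ 2 ^ n * ((Q : ℝ) / N) ^ t1 + p := by positivity
  set W : ℝ := (N : ℝ) ^ n * (2 ^ n * ((Q : ℝ) / N) ^ t1 + p) with hW
  have hW0 : 0 ≤ W := by rw [hW]; exact mul_nonneg (by positivity) hc0
  induction q with
  | zero =>
    intro U e0 _
    simp only [pow_zero, sum_const, nsmul_eq_mul, mul_one]
    rw [card_fix U e0]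
    push_cast
    exact le_refl _
  | succ q ih =>
    intro U e0 hU
    set E : Finset (Fin n → Fin N → Fin m) :=
      univ.filter (fun e : Fin n → Fin N → Fin m => ∀ x ∈ U, e x.1 x.2 = e0 x.1 x.2) with hE
    set Z : (Fin n → Fin N → Fin m) → ℝ := fun e =>
      ((univ.filter (fun σ : Fin n → Fin N => Bad σ (pick e σ))).card : ℝ) with hZ
    have hZ0 : ∀ e, 0 ≤ Z e := fun e => by rw [hZ]; positivity
    -- exchange of sums
    have h1 : ∑ e ∈ E, Z e ^ (q + 1) =
        ∑ σ : Fin n → Fin N, ∑ e ∈ E.filter (fun e => Bad σ (pick e σ)), Z e ^ q := by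
      have h10 : ∀ e, Z e ^ (q + 1) =
          ∑ σ : Fin n → Fin N, (if Bad σ (pick e σ) then Z e ^ q else 0) := by
        intro e
        rw [← sum_filter, sum_const, nsmul_eq_mul, pow_succ, mul_comm]
      rw [sum_congr rfl (fun e _ => h10 e), sum_comm]
      refine sum_congr rfl (fun σ _ => ?_)
      exact (sum_filter _ _).symm
    -- one sample
    have h2 : ∀ σ : Fin n → Fin N,
        ∑ e ∈ E.filter (fun e => Bad σ (pick e σ)), Z e ^ q ≤
        ((if t1 ≤ (univ.filter (fun i => (i, σ i) ∈ U)).card then (1 : ℝ) else 0) + p) *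
          ((m : ℝ) ^ (n * N - U.card) * W ^ q) := by
      intro σ
      set K : Finset (Fin n) := univ.filter (fun i => (i, σ i) ∈ U) with hK
      set w : Fin n → Fin m := fun i => e0 i (σ i) with hw
      set V : Finset (Fin n → Fin m) :=
        univ.filter (fun v : Fin n → Fin m => (∀ i ∈ K, v i = w i) ∧ Bad σ v) with hV
      set U' : Finset (Fin n × Fin N) := U ∪ univ.image (fun i => (i, σ i)) with hU'
      have hU'c : U'.card = U.card + (n - K.card) := moment_card_union U σ
      have hU'le : U'.card ≤ n * N := by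
        have h := card_le_univ U'
        rwa [Fintype.card_prod, Fintype.card_fin, Fintype.card_fin] at h
      have hmaps : ∀ e ∈ E.filter (fun e => Bad σ (pick e σ)), pick e σ ∈ V := by
        intro e he
        rw [mem_filter] at he
        obtain ⟨he1, he2⟩ := he
        rw [hE, mem_filter] at he1
        rw [hV, mem_filter]
        refine ⟨mem_univ _, ?_, he2⟩
        intro i hi
        rw [hK, mem_filter] at hi
        exact he1.2 (i, σ i) hi.2
      rw [← sum_fiberwise_of_maps_to hmaps]
      have h3 : ∀ v ∈ V, ∑ e ∈ (E.filter (fun e => Bad σ (pick e σ))).filter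
          (fun e => pick e σ = v), Z e ^ q ≤ (m : ℝ) ^ (n * N - U'.card) * W ^ q := by
        intro v hv
        rw [hV, mem_filter] at hv
        set e1 : Fin n → Fin N → Fin m := fun i s => if s = σ i then v i else e0 i s with he1
        have h4 := ih U' e1 (by
          intro i
          have h5 : (U'.filter (fun x => x.1 = i)) ⊆
              insert (i, σ i) (U.filter (fun x => x.1 = i)) := by
            intro x hx
            rw [mem_filter, hU', mem_union, mem_image] at hx
            obtain ⟨hx1, hx2⟩ := hx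
            rw [mem_insert, mem_filter]
            rcases hx1 with hx1 | ⟨j, _, rfl⟩
            · exact Or.inr ⟨hx1, hx2⟩
            · simp only at hx2
              subst hx2
              exact Or.inl rfl
          have h6 := card_le_card h5
          have h7 := card_insert_le (i, σ i) (U.filter (fun x => x.1 = i))
          have h8 := hU i
          omega)
        refine le_trans ?_ h4
        refine sum_le_sum_of_subset_of_nonneg ?_ (fun e _ _ => pow_nonneg (hZ0 e) q)
        intro e he
        rw [mem_filter, mem_filter] at he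
        obtain ⟨⟨he2, _⟩, he4⟩ := he
        rw [hE, mem_filter] at he2
        rw [mem_filter]
        refine ⟨mem_univ _, ?_⟩
        intro x hx
        rw [hU', mem_union, mem_image] at hx
        have key : ∀ i, e i (σ i) = v i := fun i => congrFun he4 i
        rcases hx with hx | ⟨j, _, rfl⟩
        · by_cases hxs : x.2 = σ x.1
          · rw [he1]
            simp only [hxs, if_true]
            exact key x.1
          · rw [he1]
            simp only [hxs, if_false]
            exact he2.2 x hx
        · rw [he1]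
          simp only [if_true]
          exact key j
      have h9 : ∑ v ∈ V, ∑ e ∈ (E.filter (fun e => Bad σ (pick e σ))).filter
          (fun e => pick e σ = v), Z e ^ q ≤
          (V.card : ℝ) * ((m : ℝ) ^ (n * N - U'.card) * W ^ q) := by
        calc _ ≤ ∑ _v ∈ V, (m : ℝ) ^ (n * N - U'.card) * W ^ q := sum_le_sum h3
          _ = _ := by rw [sum_const, nsmul_eq_mul]
      refine le_trans h9 ?_
      have h10 : (m : ℝ) ^ (n * N - U.card) =
          (m : ℝ) ^ (n * N - U'.card) * (m : ℝ) ^ (n - K.card) := by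
        rw [← pow_add]
        congr 1
        omega
      have h11 : (V.card : ℝ) ≤
          ((if t1 ≤ K.card then (1 : ℝ) else 0) + p) * (m : ℝ) ^ (n - K.card) := by
        by_cases hK1 : t1 ≤ K.card
        · rw [if_pos hK1]
          have h12 : V.card ≤ m ^ (n - K.card) := by
            rw [← card_agree K w]
            refine card_le_card ?_
            intro v hv
            rw [hV, mem_filter] at hv
            rw [mem_filter]
            exact ⟨mem_univ _, hv.2.1⟩
          have h13 : (V.card : ℝ) ≤ (m : ℝ) ^ (n - K.card) := by exact_mod_cast h12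
          have h14 : 0 ≤ p * (m : ℝ) ^ (n - K.card) := by positivity
          rw [add_mul, one_mul]
          linarith
        · rw [if_neg hK1, zero_add]
          exact hBad σ K w (not_le.1 hK1)
      rw [h10]
      calc (V.card : ℝ) * ((m : ℝ) ^ (n * N - U'.card) * W ^ q)
          ≤ (((if t1 ≤ K.card then (1 : ℝ) else 0) + p) * (m : ℝ) ^ (n - K.card)) *
            ((m : ℝ) ^ (n * N - U'.card) * W ^ q) :=
            mul_le_mul_of_nonneg_right h11 (by positivity)
        _ = _ := by ring
    -- total
    have h3 : ((univ.filter (fun σ : Fin n → Fin N =>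
        t1 ≤ (univ.filter (fun i => (i, σ i) ∈ U)).card)).card : ℝ) ≤
        (N : ℝ) ^ n * (2 ^ n * ((Q : ℝ) / N) ^ t1) := by
      have h30 := heavy_count t1 Q U (fun i => by have := hU i; omega)
      have h31 : ((univ.filter (fun σ : Fin n → Fin N =>
        t1 ≤ (univ.filter (fun i => (i, σ i) ∈ U)).card)).card : ℝ) * (N : ℝ) ^ t1 ≤
          2 ^ n * (Q : ℝ) ^ t1 * (N : ℝ) ^ n := by exact_mod_cast h30
      have h32 : (0 : ℝ) < (N : ℝ) ^ t1 := by positivity
      rw [← mul_le_mul_iff_left₀ h32]
      refine le_trans h31 (le_of_eq ?_)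
      rw [div_pow]
      field_simp
    calc ∑ e ∈ E, Z e ^ (q + 1)
        = ∑ σ : Fin n → Fin N, ∑ e ∈ E.filter (fun e => Bad σ (pick e σ)), Z e ^ q := h1
      _ ≤ ∑ σ : Fin n → Fin N,
          ((if t1 ≤ (univ.filter (fun i => (i, σ i) ∈ U)).card then (1 : ℝ) else 0) + p) *
          ((m : ℝ) ^ (n * N - U.card) * W ^ q) := sum_le_sum (fun σ _ => h2 σ)
      _ = (((univ.filter (fun σ : Fin n → Fin N =>
        t1 ≤ (univ.filter (fun i => (i, σ i) ∈ U)).card)).card : ℝ) + (N : ℝ) ^ n * p) *
          ((m : ℝ) ^ (n * N - U.card) * W ^ q) := by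
          rw [← sum_mul, sum_add_distrib, ← sum_filter, sum_const, sum_const, card_univ,
            Fintype.card_fun, Fintype.card_fin, Fintype.card_fin, nsmul_eq_mul, nsmul_eq_mul,
            mul_one]
          push_cast
          rfl
      _ ≤ ((N : ℝ) ^ n * (2 ^ n * ((Q : ℝ) / N) ^ t1) + (N : ℝ) ^ n * p) *
          ((m : ℝ) ^ (n * N - U.card) * W ^ q) :=
          mul_le_mul_of_nonneg_right (by linarith) (by positivity)
      _ = (m : ℝ) ^ (n * N - U.card) * W ^ (q + 1) := by
          rw [pow_succ, hW]
          ring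

open Classical in
theorem moment {n m N : ℕ} (hm : 0 < m) (hN : 0 < N)
    (Bad : (Fin n → Fin N) → (Fin n → Fin m) → Prop) (t1 Q : ℕ) (p : ℝ) (hp : 0 ≤ p)
    (hBad : ∀ (σ : Fin n → Fin N) (K : Finset (Fin n)) (w : Fin n → Fin m), K.card < t1 →
      ((univ.filter (fun v : Fin n → Fin m => (∀ i ∈ K, v i = w i) ∧ Bad σ v)).card : ℝ) ≤
        p * (m : ℝ) ^ (n - K.card)) (q : ℕ) (hq : q ≤ Q) :
    ∑ e : Fin n → Fin N → Fin m,
      ((univ.filter (fun σ : Fin n → Fin N => Bad σ (pick e σ))).card : ℝ) ^ q ≤
      (m : ℝ) ^ (n * N) * ((N : ℝ) ^ n * (2 ^ n * ((Q : ℝ) / N) ^ t1 + p)) ^ q := by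
  have h := moment_aux hm hN Bad t1 Q p hp hBad q ∅ (fun _ _ => ⟨0, hm⟩) (by
    intro i
    simp only [filter_empty, card_empty]
    omega)
  simp only [notMem_empty, false_imp_iff, implies_true, filter_true, card_empty, Nat.sub_zero]
    at h
  exact h

end MP979
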