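import Pool.Agent.Lib.MP_979eef_lc.K.Defs

/-!
# Module NotHard

A monotone DNF: for a finite family `P` of sets of rows, `dnf P a = true` iff some `A ∈ P` is
contained in the support of `a`; it is computed by an `MF` of size at most `t * P.card` if all
members have at most `t` elements (empty AND = `const true`, empty OR = `const false`; induction
over `Finset` or over `P.toList`, `A.toList`).

`sep_of_not_hard`: `P` = all `A` with `A.card ≤ t` and `H (high v 1_A) = true`. If the DNF is true
at `b` then `high v 1_A ≤ high v b`, so `H (high v b)`. If `H (low v a) = true`: not hard at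
`α = a` gives `A`, `A.card ≤ t`, with `H (low v (a on A, true off A)) = false` (impossible by
monotonicity) or `H (high v (a on A, false off A)) = true`; this vector is `1_{A'}` with
`A' = A ∩ supp a`.

`sep_trivial`: `P` = all `A` with `H (low v 1_A) = true`; the DNF equals `a ↦ H (low v a)`, and
`low v a ≤ high v a`.
-/

set_option autoImplicit false

namespace MP979

open Finset

private theorem NotHard_and {n : ℕ} (A : Finset (Fin n)) :
    ∃ φ : MF (Fin n), φ.size ≤ A.card ∧ ∀ a : Fin n → Bool, φ.eval a = true ↔ ∀ i ∈ A, a i = true := by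
  classical
  induction A using Finset.induction_on with
  | empty => exact ⟨MF.const true, le_refl _, fun a => by simp [MF.eval]⟩
  | insert i A hi ih =>
    obtain ⟨φ, h1, h2⟩ := ih
    refine ⟨MF.and (MF.var i) φ, ?_, fun a => ?_⟩
    · rw [card_insert_of_notMem hi]
      simp only [MF.size]
      omega
    · simp only [MF.eval, Bool.and_eq_true, h2 a, mem_insert, forall_eq_or_imp]

theorem exists_dnf {n : ℕ} (t : ℕ) (P : Finset (Finset (Fin n))) (hP : ∀ A ∈ P, A.card ≤ t) :
    ∃ φ : MF (Fin n), φ.size ≤ t * P.card ∧
      ∀ a : Fin n → Bool, φ.eval a = true ↔ ∃ A ∈ P, ∀ i ∈ A, a i = true := by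
  classical
  induction P using Finset.induction_on with
  | empty => exact ⟨MF.const false, le_refl _, fun a => by simp [MF.eval]⟩
  | insert A P hA ih =>
    obtain ⟨φ, h1, h2⟩ := ih (fun B hB => hP B (mem_insert_of_mem hB))
    obtain ⟨ψ, k1, k2⟩ := NotHard_and A
    have hAt := hP A (mem_insert_self _ _)
    refine ⟨MF.or ψ φ, ?_, fun a => ?_⟩
    · rw [card_insert_of_notMem hA, mul_add, mul_one]
      simp only [MF.size]
      omega
    · simp only [MF.eval, Bool.or_eq_true, h2 a, k2 a, mem_insert, exists_eq_or_imp]

private theorem NotHard_low {n m : ℕ} (v : Fin n → Fin m) (a b : Fin n → Bool)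
    (h : ∀ i, a i = true → b i = true) (i : Fin n) (j : Fin m) (hl : low v a i j = true) :
    low v b i j = true := by
  simp only [low, Bool.and_eq_true] at hl ⊢
  exact ⟨h i hl.1, hl.2⟩

private theorem NotHard_high {n m : ℕ} (v : Fin n → Fin m) (a b : Fin n → Bool)
    (h : ∀ i, a i = true → b i = true) (i : Fin n) (j : Fin m) (hl : high v a i j = true) :
    high v b i j = true := by
  simp only [high, Bool.or_eq_true] at hl ⊢
  exact hl.imp (h i) id

theorem sep_of_not_hard {n m t : ℕ} (H : (Fin n → Fin m → Bool) → Bool) (hH : MonoTab H)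
    (v : Fin n → Fin m) (h : ¬ Hard t H v) :
    Sep (t * nsub n t) (fun a => H (low v a)) (fun b => H (high v b)) := by
  classical
  obtain ⟨φ, h1, h2⟩ := exists_dnf t
    (univ.filter (fun A : Finset (Fin n) => A.card ≤ t ∧ H (high v (fun i => decide (i ∈ A))) = true))
    (fun A hA => (mem_filter.1 hA).2.1)
  refine ⟨φ, le_trans h1 (Nat.mul_le_mul_left _ (card_le_card ?_)), ?_, ?_⟩
  · intro A hA
    exact mem_filter.2 ⟨mem_univ _, (mem_filter.1 hA).2.1⟩
  · intro a ha
    rw [h2 a]
    have h' := h
    unfold Hard at h'
    push Not at h'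
    obtain ⟨A, hA, hA2⟩ := h' a
    have e1 : H (low v (fun i => if i ∈ A then a i else true)) = true := by
      refine hH _ _ (fun i j => NotHard_low v a _ (fun i hi => ?_) i j) ha
      by_cases hiA : i ∈ A
      · rw [if_pos hiA]; exact hi
      · rw [if_neg hiA]
    have e2 : H (high v (fun i => if i ∈ A then a i else false)) = true := by
      have := hA2 e1
      simpa using this
    refine ⟨A.filter (fun i => a i = true), mem_filter.2 ⟨mem_univ _, le_trans (card_filter_le _ _) hA, ?_⟩,
      fun i hi => (mem_filter.1 hi).2⟩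
    have e3 : (fun i => decide (i ∈ A.filter (fun i => a i = true))) = fun i => if i ∈ A then a i else false := by
      funext i
      by_cases hiA : i ∈ A
      · rw [if_pos hiA]
        cases hai : a i with
        | true => simp [hiA, hai]
        | false => simp [hai]
      · rw [if_neg hiA]
        simp [hiA]
    rw [e3]
    exact e2
  · intro b hb
    obtain ⟨A, hA, hAb⟩ := (h2 b).1 hb
    refine hH _ _ (fun i j => NotHard_high v _ b (fun i hi => ?_) i j) (mem_filter.1 hA).2.2
    exact hAb i (of_decide_eq_true hi)

private theorem NotHard_card {n : ℕ} (p : Finset (Fin n) → Prop) [DecidablePred p] :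
    (univ.filter p).card ≤ 2 ^ n := by
  refine le_trans (card_filter_le _ _) ?_
  rw [card_univ, Fintype.card_finset, Fintype.card_fin]

private theorem NotHard_supp {n : ℕ} (a : Fin n → Bool) :
    (fun i => decide (i ∈ (univ.filter (fun i => a i = true) : Finset (Fin n)))) = a := by
  funext i
  cases hai : a i with
  | true => simp [hai]
  | false => simp [hai]

theorem sep_trivial {n m : ℕ} (H : (Fin n → Fin m → Bool) → Bool) (hH : MonoTab H)
    (v : Fin n → Fin m) :
    Sep (n * 2 ^ n) (fun a => H (low v a)) (fun b => H (high v b)) := by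
  classical
  obtain ⟨φ, h1, h2⟩ := exists_dnf n
    (univ.filter (fun A : Finset (Fin n) => H (low v (fun i => decide (i ∈ A))) = true))
    (fun A _ => by
      have := card_le_univ A
      rwa [Fintype.card_fin] at this)
  refine ⟨φ, le_trans h1 (Nat.mul_le_mul_left _ (NotHard_card _)), ?_, ?_⟩
  · intro a ha
    rw [h2 a]
    refine ⟨univ.filter (fun i => a i = true), mem_filter.2 ⟨mem_univ _, ?_⟩, fun i hi => (mem_filter.1 hi).2⟩
    rw [NotHard_supp a]
    exact ha
  · intro b hb
    obtain ⟨A, hA, hAb⟩ := (h2 b).1 hb
    refine hH _ _ (fun i j hl => ?_) (mem_filter.1 hA).2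
    simp only [low, Bool.and_eq_true] at hl
    simp only [high, Bool.or_eq_true]
    exact Or.inl (hAb i (of_decide_eq_true hl.1))

/-- A monotone function has a DNF. -/
theorem sep_self {n : ℕ} {f : (Fin n → Bool) → Bool} (hf : Monotone f) :
    Sep (n * 2 ^ n) f f := by
  classical
  obtain ⟨φ, h1, h2⟩ := exists_dnf n
    (univ.filter (fun A : Finset (Fin n) => f (fun i => decide (i ∈ A)) = true))
    (fun A _ => by
      have := card_le_univ A
      rwa [Fintype.card_fin] at this)
  refine ⟨φ, le_trans h1 (Nat.mul_le_mul_left _ (NotHard_card _)), ?_, ?_⟩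
  · intro a ha
    rw [h2 a]
    refine ⟨univ.filter (fun i => a i = true), mem_filter.2 ⟨mem_univ _, ?_⟩, fun i hi => (mem_filter.1 hi).2⟩
    rw [NotHard_supp a]
    exact ha
  · intro b hb
    obtain ⟨A, hA, hAb⟩ := (h2 b).1 hb
    have hle : (fun i => decide (i ∈ A)) ≤ b := by
      intro i
      by_cases hi : i ∈ A
      · rw [hAb i hi]
        exact Bool.le_true _
      · have : decide (i ∈ A) = false := decide_eq_false hi
        show decide (i ∈ A) ≤ b i
        rw [this]
        exact Bool.false_le _
    have := hf hle
    rw [(mem_filter.1 hA).2] at this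
    exact Bool.eq_true_of_true_le this

end MP979
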