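import Pool.Agent.Lib.MP_979eef_lc.K.Defs

/-!
# Module NumS

`nsub n t = ∑ k ≤ t, n.choose k` and
`(b + 1) ^ n = ∑ k, n.choose k * b ^ (n - k) ≥ ∑ k ≤ t, n.choose k * b ^ (n - t)` for `b ≥ 1`
(for `b = 0` and `t < n` the left side is 0; for `t = n`, `b = 0` it is `2 ^ n ≤ 1`: so assume `b ≥ 1`).
-/

set_option autoImplicit false

namespace MP979

open Finset

theorem nsub_le (n t b : ℕ) (hb : 1 ≤ b) (ht : t ≤ n) : nsub n t * b ^ (n - t) ≤ (b + 1) ^ n := by
  have h1 := Fintype.sum_pow_mul_eq_add_pow (Fin n) (1 : ℕ) b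
  rw [Fintype.card_fin, add_comm 1 b] at h1
  rw [← h1]
  unfold nsub
  calc (univ.filter (fun A : Finset (Fin n) => A.card ≤ t)).card * b ^ (n - t)
      = ∑ A ∈ univ.filter (fun A : Finset (Fin n) => A.card ≤ t), b ^ (n - t) := by
        rw [sum_const, smul_eq_mul]
    _ ≤ ∑ A ∈ univ.filter (fun A : Finset (Fin n) => A.card ≤ t),
        1 ^ A.card * b ^ (n - A.card) := by
        refine sum_le_sum fun A hA => ?_
        rw [mem_filter] at hA
        rw [one_pow, one_mul]
        exact Nat.pow_le_pow_right hb (by omega)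
    _ ≤ ∑ A : Finset (Fin n), 1 ^ A.card * b ^ (n - A.card) :=
        sum_le_sum_of_subset_of_nonneg (filter_subset _ _) fun _ _ _ => Nat.zero_le _

end MP979
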