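import Pool.Agent.Lib.MP_979eef_lc.K.Moment
import Pool.Agent.Lib.MP_979eef_lc.K.Inner
import Pool.Agent.Lib.MP_979eef_lc.K.InnerInj

/-!
# Module Select

Union bound over the pieces `h ∈ P` and Markov: by `moment` with `Bad σ v = Hard (2 * t1 - 1)
(fun S => h (asg adr σ S)) v` (`monoTab_asg`), `p = 4 ^ n / m ^ t1` (`hard_count`:
`t + 1 - K.card ≥ t1`), `q = Q`, the number of `e` with `Z e * 2 ^ n ≥ N ^ n` is at most
`m ^ (n * N) * (2 ^ n * (2 ^ n * (Q / N) ^ t1 + p)) ^ Q`; altogether fewer than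
`m ^ (n * N) / 2`. The `e` with `comp f (gfun adr e) ∈ P` for some non-constant `f` are at most
`P.card` by `gfun_inj`. Here `n = r + m`.
-/

set_option autoImplicit false

namespace MP979

open Finset

open Classical in
/-- Markov for one piece. -/
private lemma Select_one {r m N : ℕ} {adr : Fin (r + m) → Fin N → Fin r → Bool}
    (hm : 0 < m) (hN : 0 < N) (t1 Q : ℕ) (ht1 : 1 ≤ t1)
    (h : (Fin (r + m) × Fin (r + m) → Bool) → Bool)
    (hh : MonoIn (dat r m) h) :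
    ((univ.filter (fun e : Fin (r + m) → Fin N → Fin m => N ^ (r + m) ≤
      (univ.filter (fun σ : Fin (r + m) → Fin N =>
        Hard (2 * t1 - 1) (fun S => h (asg adr σ S)) (pick e σ))).card * 2 ^ (r + m))).card : ℝ) ≤
      (m : ℝ) ^ ((r + m) * N) * ((2 : ℝ) ^ (r + m) * (2 ^ (r + m) * ((Q : ℝ) / N) ^ t1 +
      4 ^ (r + m) / (m : ℝ) ^ t1)) ^ Q := by
  have hm' : (0 : ℝ) < m := by exact_mod_cast hm
  have hN' : (0 : ℝ) < N := by exact_mod_cast hN
  set Bad : (Fin (r + m) → Fin N) → (Fin (r + m) → Fin m) → Prop :=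
    fun σ v => Hard (2 * t1 - 1) (fun S => h (asg adr σ S)) v with hBadDef
  set Z : (Fin (r + m) → Fin N → Fin m) → ℕ := fun e =>
    (univ.filter (fun σ : Fin (r + m) → Fin N => Bad σ (pick e σ))).card with hZ
  set E := univ.filter (fun e : Fin (r + m) → Fin N → Fin m =>
    N ^ (r + m) ≤ Z e * 2 ^ (r + m)) with hE
  have hmom := moment hm hN Bad t1 Q ((4 : ℝ) ^ (r + m) / (m : ℝ) ^ t1) (by positivity) (by
    intro σ K w hK
    have h1 := hard_count (t := 2 * t1 - 1) (fun S => h (asg adr σ S)) (monoTab_asg hh σ) K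
      (by omega) w
    have h2 : ((univ.filter (fun v : Fin (r + m) → Fin m => (∀ i ∈ K, v i = w i) ∧ Bad σ v)).card : ℝ) *
        (m : ℝ) ^ (2 * t1 - 1 + 1 - K.card) ≤ 4 ^ (r + m) * (m : ℝ) ^ ((r + m) - K.card) := by
      exact_mod_cast h1
    have h3 : (m : ℝ) ^ t1 ≤ (m : ℝ) ^ (2 * t1 - 1 + 1 - K.card) := by
      apply pow_le_pow_right₀
      · exact_mod_cast hm
      · omega
    rw [div_mul_eq_mul_div, le_div_iff₀ (by positivity)]
    refine le_trans (mul_le_mul_of_nonneg_left h3 (by positivity)) h2) Q le_rfl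
  have h1 : (E.card : ℝ) * ((N : ℝ) ^ (r + m) / 2 ^ (r + m)) ^ Q ≤
      ∑ e : Fin (r + m) → Fin N → Fin m, ((Z e : ℕ) : ℝ) ^ Q := by
    calc (E.card : ℝ) * ((N : ℝ) ^ (r + m) / 2 ^ (r + m)) ^ Q
        = ∑ _e ∈ E, ((N : ℝ) ^ (r + m) / 2 ^ (r + m)) ^ Q := by rw [sum_const, nsmul_eq_mul]
      _ ≤ ∑ e ∈ E, ((Z e : ℕ) : ℝ) ^ Q := by
          refine sum_le_sum (fun e he => ?_)
          rw [hE, mem_filter] at he
          refine pow_le_pow_left₀ (by positivity) ?_ Q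
          rw [div_le_iff₀ (by positivity)]
          exact_mod_cast he.2
      _ ≤ _ := sum_le_sum_of_subset_of_nonneg (subset_univ _) (fun e _ _ => by positivity)
  have h2 : (E.card : ℝ) * ((N : ℝ) ^ (r + m) / 2 ^ (r + m)) ^ Q ≤
      (m : ℝ) ^ ((r + m) * N) * ((N : ℝ) ^ (r + m) * (2 ^ (r + m) * ((Q : ℝ) / N) ^ t1 +
        4 ^ (r + m) / (m : ℝ) ^ t1)) ^ Q := le_trans h1 hmom
  have h3 : (0 : ℝ) < ((N : ℝ) ^ (r + m) / 2 ^ (r + m)) ^ Q := by positivity
  rw [← mul_le_mul_iff_left₀ h3]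
  refine le_trans h2 (le_of_eq ?_)
  rw [mul_assoc, ← mul_pow]
  congr 2
  field_simp

open Classical in
theorem select {r m N : ℕ} {adr : Fin (r + m) → Fin N → Fin r → Bool} (ha : Adr adr)
    (hm : 0 < m) (hN : 0 < N) (t1 Q : ℕ) (ht1 : 1 ≤ t1)
    (P : Finset ((Fin (r + m) × Fin (r + m) → Bool) → Bool))
    (hP : ∀ h ∈ P, MonoIn (dat r m) h)
    (hc : (P.card : ℝ) * ((2 : ℝ) ^ (r + m) * (2 ^ (r + m) * ((Q : ℝ) / N) ^ t1 +
      4 ^ (r + m) / (m : ℝ) ^ t1)) ^ Q < 1 / 2)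
    (hcard : 2 * P.card < m ^ ((r + m) * N)) :
    ∃ e : Fin (r + m) → Fin N → Fin m,
      (∀ h ∈ P, (univ.filter (fun σ : Fin (r + m) → Fin N =>
        Hard (2 * t1 - 1) (fun S => h (asg adr σ S)) (pick e σ))).card * 2 ^ (r + m) <
          N ^ (r + m)) ∧
      ∀ f : (Fin (r + m) → Bool) → Bool, NonConst f → comp f (gfun adr e) ∉ P := by
  have hm' : (0 : ℝ) < m := by exact_mod_cast hm
  by_contra hcon
  push Not at hcon
  set B1 : ((Fin (r + m) × Fin (r + m) → Bool) → Bool) → Finset (Fin (r + m) → Fin N → Fin m) :=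
    fun h => univ.filter (fun e : Fin (r + m) → Fin N → Fin m => N ^ (r + m) ≤
      (univ.filter (fun σ : Fin (r + m) → Fin N =>
        Hard (2 * t1 - 1) (fun S => h (asg adr σ S)) (pick e σ))).card * 2 ^ (r + m)) with hB1
  set B2 : Finset (Fin (r + m) → Fin N → Fin m) :=
    univ.filter (fun e => ∃ f : (Fin (r + m) → Bool) → Bool, NonConst f ∧
      comp f (gfun adr e) ∈ P) with hB2
  have hcover : (univ : Finset (Fin (r + m) → Fin N → Fin m)) ⊆ P.biUnion B1 ∪ B2 := by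
    intro e _
    rw [mem_union]
    by_cases h : ∀ h ∈ P, (univ.filter (fun σ : Fin (r + m) → Fin N =>
        Hard (2 * t1 - 1) (fun S => h (asg adr σ S)) (pick e σ))).card * 2 ^ (r + m) <
          N ^ (r + m)
    · right
      obtain ⟨f, hf1, hf2⟩ := hcon e h
      rw [hB2, mem_filter]
      exact ⟨mem_univ _, f, hf1, hf2⟩
    · left
      push Not at h
      obtain ⟨h, hhP, hh⟩ := h
      rw [mem_biUnion]
      refine ⟨h, hhP, ?_⟩
      rw [hB1, mem_filter]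
      exact ⟨mem_univ _, hh⟩
  have hB2c : B2.card ≤ P.card := by
    have hex : ∀ e ∈ B2, ∃ f : (Fin (r + m) → Bool) → Bool, NonConst f ∧
        comp f (gfun adr e) ∈ P := fun e he => (mem_filter.1 he).2
    choose! F hF1 hF2 using hex
    refine card_le_card_of_injOn (fun e => comp (F e) (gfun adr e)) (fun e he => hF2 e he) ?_
    intro e he e' he' hee
    exact gfun_inj ha e e' (F e) (F e') (hF1 e he) (hF1 e' he') hee
  have htot : Fintype.card (Fin (r + m) → Fin N → Fin m) = m ^ ((r + m) * N) := by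
    rw [Fintype.card_fun, Fintype.card_fun, Fintype.card_fin, Fintype.card_fin, Fintype.card_fin,
      ← pow_mul, mul_comm]
  have h1 : (m ^ ((r + m) * N) : ℕ) ≤ ∑ h ∈ P, (B1 h).card + P.card := by
    rw [← htot, ← card_univ]
    refine le_trans (card_le_card hcover) (le_trans (card_union_le _ _) ?_)
    exact Nat.add_le_add card_biUnion_le hB2c
  have h2 : ((∑ h ∈ P, (B1 h).card : ℕ) : ℝ) ≤ (P.card : ℝ) * ((m : ℝ) ^ ((r + m) * N) *
      ((2 : ℝ) ^ (r + m) * (2 ^ (r + m) * ((Q : ℝ) / N) ^ t1 +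
      4 ^ (r + m) / (m : ℝ) ^ t1)) ^ Q) := by
    push_cast
    calc ∑ h ∈ P, ((B1 h).card : ℝ) ≤ ∑ _h ∈ P, ((m : ℝ) ^ ((r + m) * N) *
      ((2 : ℝ) ^ (r + m) * (2 ^ (r + m) * ((Q : ℝ) / N) ^ t1 +
      4 ^ (r + m) / (m : ℝ) ^ t1)) ^ Q) :=
          sum_le_sum (fun h hh => Select_one hm hN t1 Q ht1 h (hP h hh))
      _ = _ := by rw [sum_const, nsmul_eq_mul]
  have h3 : (0 : ℝ) < (m : ℝ) ^ ((r + m) * N) := by positivity
  have h4 : ((∑ h ∈ P, (B1 h).card : ℕ) : ℝ) < (m : ℝ) ^ ((r + m) * N) * (1 / 2) := by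
    refine lt_of_le_of_lt h2 ?_
    have h5 := mul_lt_mul_of_pos_left hc h3
    calc _ = (m : ℝ) ^ ((r + m) * N) * ((P.card : ℝ) * ((2 : ℝ) ^ (r + m) *
        (2 ^ (r + m) * ((Q : ℝ) / N) ^ t1 + 4 ^ (r + m) / (m : ℝ) ^ t1)) ^ Q) := by ring
      _ < _ := h5
  have h5 : ((m ^ ((r + m) * N) : ℕ) : ℝ) ≤ ((∑ h ∈ P, (B1 h).card : ℕ) : ℝ) + (P.card : ℝ) := by
    exact_mod_cast h1
  have h6 : 2 * (P.card : ℝ) < (m : ℝ) ^ ((r + m) * N) := by exact_mod_cast hcard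
  push_cast at h5
  push_cast at h4
  linarith

end MP979
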