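import Pool.Agent.Lib.MP_979eef_lc.K.Main

/-!
Composition of monotone functions. For every `ε > 0` there is one monotone inner function `g` such
that for every monotone non-constant outer function `f` every De Morgan formula for `f ◇ g`, in
which the last `m` variables of every block (`m` depends on `ε` only) occur only un-negated, has size
at least `L(f) * 2 ^ ((1 - ε) n)`, `L(f)` the monotone formula size of `f`; for some `f` the size is
at least `2 ^ ((2 - ε) n)` and the depth at least `(2 - ε) n`.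
-/

set_option autoImplicit false

namespace MP979.ShelfMonotone

open MP979

/-- Composition theorem in the monotone model. -/
theorem result (ε : ℝ) (hε : 0 < ε) : ∃ m n₀ : ℕ, ∀ n ≥ n₀,
    ∃ g : (Fin n → Bool) → Bool, Monotone g ∧ NonConst g ∧
      (∀ f : (Fin n → Bool) → Bool, Monotone f → NonConst f →
        ∀ F : Fml (Fin n × Fin n), (∀ x, F.eval x = comp f g x) →
          F.PosOn {p | n ≤ (p.2 : ℕ) + m} →
            (monoSize f : ℝ) * 2 ^ ((1 - ε) * n) ≤ F.size) ∧
      ∃ f : (Fin n → Bool) → Bool, Monotone f ∧ NonConst f ∧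
        ∀ F : Fml (Fin n × Fin n), (∀ x, F.eval x = comp f g x) →
          F.PosOn {p | n ≤ (p.2 : ℕ) + m} →
            (2 : ℝ) ^ ((2 - ε) * n) ≤ F.size ∧ (2 - ε) * n ≤ F.depth := by
  obtain ⟨m, n1, h1⟩ := mono_krw (ε / 2) (by linarith)
  obtain ⟨n2, h2⟩ := hard_outer (ε / 2) (by linarith)
  refine ⟨m, max n1 n2, fun n hn => ?_⟩
  obtain ⟨g, hg1, hg2, hg3⟩ := h1 n (le_trans (le_max_left _ _) hn)
  refine ⟨g, hg1, hg2, ?_, ?_⟩
  · intro f _ hf F hF hFp
    refine le_trans ?_ (hg3 f hf F hFp hF)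
    refine mul_le_mul_of_nonneg_left ?_ (Nat.cast_nonneg _)
    refine Real.rpow_le_rpow_of_exponent_le (by norm_num) ?_
    refine mul_le_mul_of_nonneg_right ?_ (Nat.cast_nonneg _)
    linarith
  · obtain ⟨f, hf1, hf2, hf3⟩ := h2 n (le_trans (le_max_right _ _) hn)
    refine ⟨f, hf1, hf2, fun F hF hFp => ?_⟩
    have hsize : (2 : ℝ) ^ ((2 - ε) * n) ≤ F.size := by
      refine le_trans ?_ (hg3 f hf2 F hFp hF)
      have h3 : (2 : ℝ) ^ ((2 - ε) * n) = 2 ^ ((1 - ε / 2) * n) * 2 ^ ((1 - ε / 2) * n) := by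
        rw [← Real.rpow_add (by norm_num)]
        congr 1
        ring
      rw [h3]
      exact mul_le_mul_of_nonneg_right hf3 (by positivity)
    refine ⟨hsize, ?_⟩
    have h4 : (2 : ℝ) ^ ((2 - ε) * n) ≤ (2 : ℝ) ^ ((F.depth : ℕ) : ℝ) := by
      rw [Real.rpow_natCast]
      refine le_trans hsize ?_
      exact_mod_cast Fml.size_le F
    exact (Real.rpow_le_rpow_left_iff (by norm_num)).1 h4

end MP979.ShelfMonotone
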